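import Pool.Agent.K9h86.Th.Defs

/-!
# The action of the symplectic group on the Siegel upper half-space
-/

set_option autoImplicit false

open Matrix Complex Filter Topology
open scoped Matrix.Norms.Elementwise Real ComplexOrder

namespace Pool.Agent.K9h86.Th

variable {g : ℕ}

/-- the complexification of an integer matrix -/
def cc {g : ℕ} (A : Matrix (Fin g) (Fin g) ℤ) : Matrix (Fin g) (Fin g) ℂ := A.map (Int.cast : ℤ → ℂ)

theorem cc_mul (A B : Matrix (Fin g) (Fin g) ℤ) : cc (A * B) = cc A * cc B := by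
  have := Matrix.map_mul (L := A) (M := B) (f := Int.castRingHom ℂ)
  simpa [cc] using this

theorem cc_add (A B : Matrix (Fin g) (Fin g) ℤ) : cc (A + B) = cc A + cc B := by
  ext i j; simp [cc]

theorem cc_sub (A B : Matrix (Fin g) (Fin g) ℤ) : cc (A - B) = cc A - cc B := by
  ext i j; simp [cc]

theorem cc_one : cc (1 : Matrix (Fin g) (Fin g) ℤ) = 1 := by
  ext i j
  by_cases h : i = j
  · subst h; simp [cc]
  · simp [cc, h]

theorem cc_transpose (A : Matrix (Fin g) (Fin g) ℤ) : cc Aᵀ = (cc A)ᵀ := by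
  ext i j; simp [cc]

theorem cc_conjTranspose (A : Matrix (Fin g) (Fin g) ℤ) : (cc A)ᴴ = (cc A)ᵀ := by
  ext i j; simp [cc, Matrix.conjTranspose_apply]

/-- numerator -/
noncomputable def num (γ : Matrix (Fin g ⊕ Fin g) (Fin g ⊕ Fin g) ℤ)
    (τ : Matrix (Fin g) (Fin g) ℂ) : Matrix (Fin g) (Fin g) ℂ :=
  cc γ.toBlocks₁₁ * τ + cc γ.toBlocks₁₂

/-- denominator -/
noncomputable def den (γ : Matrix (Fin g ⊕ Fin g) (Fin g ⊕ Fin g) ℤ)
    (τ : Matrix (Fin g) (Fin g) ℂ) : Matrix (Fin g) (Fin g) ℂ :=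
  cc γ.toBlocks₂₁ * τ + cc γ.toBlocks₂₂

theorem act_eq (γ : Matrix (Fin g ⊕ Fin g) (Fin g ⊕ Fin g) ℤ)
    (τ : Matrix (Fin g) (Fin g) ℂ) : act γ τ = num γ τ * (den γ τ)⁻¹ := rfl

theorem symp_blocks (γ : Matrix (Fin g ⊕ Fin g) (Fin g ⊕ Fin g) ℤ)
    (h : γ ∈ Matrix.symplecticGroup (Fin g) ℤ) :
    γ.toBlocks₂₁ᵀ * γ.toBlocks₁₁ = γ.toBlocks₁₁ᵀ * γ.toBlocks₂₁ ∧
    γ.toBlocks₂₂ᵀ * γ.toBlocks₁₂ = γ.toBlocks₁₂ᵀ * γ.toBlocks₂₂ ∧
    γ.toBlocks₁₁ᵀ * γ.toBlocks₂₂ - γ.toBlocks₂₁ᵀ * γ.toBlocks₁₂ = 1 := by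
  rw [SymplecticGroup.mem_iff', ← Matrix.fromBlocks_toBlocks γ, Matrix.J,
    Matrix.fromBlocks_transpose, Matrix.fromBlocks_multiply, Matrix.fromBlocks_multiply,
    Matrix.fromBlocks_inj] at h
  obtain ⟨h1, h2, h3, h4⟩ := h
  simp only [Matrix.mul_zero, Matrix.mul_one, zero_add, add_zero, Matrix.mul_neg,
    Matrix.neg_mul] at h1 h2 h3 h4
  refine ⟨?_, ?_, ?_⟩
  · rw [← sub_eq_zero, sub_eq_add_neg]; exact h1
  · rw [← sub_eq_zero, sub_eq_add_neg]; exact h4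
  · rw [← neg_inj, ← h2]; abel

/-- the imaginary part as a complex matrix -/
noncomputable def imc (τ : Matrix (Fin g) (Fin g) ℂ) : Matrix (Fin g) (Fin g) ℂ :=
  (τ.map Complex.im).map (algebraMap ℝ ℂ)

theorem sub_conjTranspose (τ : Matrix (Fin g) (Fin g) ℂ) (h : τᵀ = τ) :
    τ - τᴴ = (2 * I) • imc τ := by
  ext i j
  have h1 : τ j i = τ i j := by
    conv_rhs => rw [← h]
    rfl
  simp only [Matrix.sub_apply, Matrix.conjTranspose_apply, Matrix.smul_apply, imc, Matrix.map_apply,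
    h1, smul_eq_mul]
  apply Complex.ext
  · simp
  · simp
    ring

/-- complexification of a positive definite real matrix -/
theorem posDef_ofReal {M : Matrix (Fin g) (Fin g) ℝ} (h : M.PosDef) :
    (M.map (algebraMap ℝ ℂ)).PosDef := by
  refine Matrix.PosDef.of_dotProduct_mulVec_pos ?_ ?_
  · ext i j
    have := h.1.apply i j
    simp only [star_trivial] at this
    simp [Matrix.conjTranspose_apply, this]
  · intro x hx
    set u : Fin g → ℝ := fun i => (x i).re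
    set v : Fin g → ℝ := fun i => (x i).im
    have key : star x ⬝ᵥ ((M.map (algebraMap ℝ ℂ)) *ᵥ x) =
        ((u ⬝ᵥ (M *ᵥ u) + v ⬝ᵥ (M *ᵥ v) : ℝ) : ℂ) := by
      have hs : u ⬝ᵥ (M *ᵥ v) = v ⬝ᵥ (M *ᵥ u) := by
        have h2 : Mᵀ = M := by
          have := h.1
          rwa [Matrix.IsHermitian, Matrix.conjTranspose_eq_transpose_of_trivial] at this
        rw [Matrix.dotProduct_mulVec, ← Matrix.mulVec_transpose, h2, dotProduct_comm]
      apply Complex.ext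
      · simp only [dotProduct, mulVec, Pi.star_apply, RCLike.star_def, Complex.re_sum,
          Complex.ofReal_re, Matrix.map_apply, Complex.coe_algebraMap, Finset.mul_sum, u, v]
        rw [← Finset.sum_add_distrib]
        refine Finset.sum_congr rfl fun i _ => ?_
        rw [← Finset.sum_add_distrib]
        refine Finset.sum_congr rfl fun j _ => ?_
        simp
      · simp only [Complex.ofReal_im]
        have : (star x ⬝ᵥ ((M.map (algebraMap ℝ ℂ)) *ᵥ x)).im = u ⬝ᵥ (M *ᵥ v) - v ⬝ᵥ (M *ᵥ u) := by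
          simp only [dotProduct, mulVec, Pi.star_apply, RCLike.star_def, Complex.im_sum,
            Matrix.map_apply, Complex.coe_algebraMap, Finset.mul_sum, u, v]
          rw [← Finset.sum_sub_distrib]
          refine Finset.sum_congr rfl fun i _ => ?_
          rw [← Finset.sum_sub_distrib]
          refine Finset.sum_congr rfl fun j _ => ?_
          simp
          ring
        rw [this, hs, sub_self]
    rw [key]
    have hu : 0 ≤ u ⬝ᵥ (M *ᵥ u) := by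
      have := h.posSemidef.dotProduct_mulVec_nonneg u
      simpa using this
    have hv : 0 ≤ v ⬝ᵥ (M *ᵥ v) := by
      have := h.posSemidef.dotProduct_mulVec_nonneg v
      simpa using this
    have hne : u ≠ 0 ∨ v ≠ 0 := by
      by_contra hcon
      push Not at hcon
      apply hx
      funext i
      apply Complex.ext
      · exact congrFun hcon.1 i
      · exact congrFun hcon.2 i
    have : 0 < u ⬝ᵥ (M *ᵥ u) + v ⬝ᵥ (M *ᵥ v) := by
      rcases hne with h' | h'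
      · have := h.dotProduct_mulVec_pos h'
        simp only [star_trivial] at this
        linarith
      · have := h.dotProduct_mulVec_pos h'
        simp only [star_trivial] at this
        linarith
    exact_mod_cast this

theorem of_posDef_ofReal {M : Matrix (Fin g) (Fin g) ℝ} (h : (M.map (algebraMap ℝ ℂ)).PosDef) :
    M.PosDef := by
  refine Matrix.PosDef.of_dotProduct_mulVec_pos ?_ ?_
  · ext i j
    have := h.1.apply i j
    simp only [Matrix.map_apply, RCLike.star_def] at this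
    simp only [Complex.coe_algebraMap, Complex.conj_ofReal, Complex.ofReal_inj] at this
    simpa using this
  · intro x hx
    have hx' : (fun i => (x i : ℂ)) ≠ 0 := by
      intro h0
      apply hx
      funext i
      have := congrFun h0 i
      simpa using this
    have := h.dotProduct_mulVec_pos hx'
    have key : star (fun i => (x i : ℂ)) ⬝ᵥ ((M.map (algebraMap ℝ ℂ)) *ᵥ (fun i => (x i : ℂ))) =
        ((star x ⬝ᵥ (M *ᵥ x) : ℝ) : ℂ) := by
      simp [dotProduct, mulVec]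
    rw [key] at this
    exact_mod_cast this

section

variable {γ : Matrix (Fin g ⊕ Fin g) (Fin g ⊕ Fin g) ℤ} {τ : Matrix (Fin g) (Fin g) ℂ}

/-- the relations of the blocks, complexified -/
theorem symp_blocks_cc (h : γ ∈ Matrix.symplecticGroup (Fin g) ℤ) :
    (cc γ.toBlocks₂₁)ᵀ * cc γ.toBlocks₁₁ = (cc γ.toBlocks₁₁)ᵀ * cc γ.toBlocks₂₁ ∧
    (cc γ.toBlocks₂₂)ᵀ * cc γ.toBlocks₁₂ = (cc γ.toBlocks₁₂)ᵀ * cc γ.toBlocks₂₂ ∧
    (cc γ.toBlocks₁₁)ᵀ * cc γ.toBlocks₂₂ - (cc γ.toBlocks₂₁)ᵀ * cc γ.toBlocks₁₂ = 1 := by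
  obtain ⟨h1, h2, h3⟩ := symp_blocks γ h
  refine ⟨?_, ?_, ?_⟩
  · rw [← cc_transpose, ← cc_transpose, ← cc_mul, ← cc_mul, h1]
  · rw [← cc_transpose, ← cc_transpose, ← cc_mul, ← cc_mul, h2]
  · rw [← cc_transpose, ← cc_transpose, ← cc_mul, ← cc_mul, ← cc_sub, h3, cc_one]

theorem den_num_transpose (h : γ ∈ Matrix.symplecticGroup (Fin g) ℤ) (hτ : τᵀ = τ) :
    (den γ τ)ᵀ * num γ τ = (num γ τ)ᵀ * den γ τ := by
  obtain ⟨h1, h2, h3⟩ := symp_blocks_cc h
  have h4 : (cc γ.toBlocks₂₂)ᵀ * cc γ.toBlocks₁₁ - (cc γ.toBlocks₁₂)ᵀ * cc γ.toBlocks₂₁ = 1 := by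
    have := congrArg Matrix.transpose h3
    simpa [Matrix.transpose_sub, Matrix.transpose_mul] using this
  simp only [num, den, Matrix.transpose_add, Matrix.transpose_mul, hτ]
  rw [← sub_eq_zero]
  have e : (τ * (cc γ.toBlocks₂₁)ᵀ + (cc γ.toBlocks₂₂)ᵀ) * (cc γ.toBlocks₁₁ * τ + cc γ.toBlocks₁₂) -
      (τ * (cc γ.toBlocks₁₁)ᵀ + (cc γ.toBlocks₁₂)ᵀ) * (cc γ.toBlocks₂₁ * τ + cc γ.toBlocks₂₂) =
      τ * ((cc γ.toBlocks₂₁)ᵀ * cc γ.toBlocks₁₁ - (cc γ.toBlocks₁₁)ᵀ * cc γ.toBlocks₂₁) * τ -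
      τ * ((cc γ.toBlocks₁₁)ᵀ * cc γ.toBlocks₂₂ - (cc γ.toBlocks₂₁)ᵀ * cc γ.toBlocks₁₂) +
      ((cc γ.toBlocks₂₂)ᵀ * cc γ.toBlocks₁₁ - (cc γ.toBlocks₁₂)ᵀ * cc γ.toBlocks₂₁) * τ +
      ((cc γ.toBlocks₂₂)ᵀ * cc γ.toBlocks₁₂ - (cc γ.toBlocks₁₂)ᵀ * cc γ.toBlocks₂₂) := by
    noncomm_ring
  rw [e, h1, h2, h3, h4]
  simp

theorem den_num_conjTranspose (h : γ ∈ Matrix.symplecticGroup (Fin g) ℤ) (hτ : τᵀ = τ) :
    (den γ τ)ᴴ * num γ τ - (num γ τ)ᴴ * den γ τ = (2 * I) • imc τ := by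
  obtain ⟨h1, h2, h3⟩ := symp_blocks_cc h
  have h4 : (cc γ.toBlocks₂₂)ᵀ * cc γ.toBlocks₁₁ - (cc γ.toBlocks₁₂)ᵀ * cc γ.toBlocks₂₁ = 1 := by
    have := congrArg Matrix.transpose h3
    simpa [Matrix.transpose_sub, Matrix.transpose_mul] using this
  rw [← sub_conjTranspose τ hτ]
  simp only [num, den, Matrix.conjTranspose_add, Matrix.conjTranspose_mul, cc_conjTranspose]
  have e : (τᴴ * (cc γ.toBlocks₂₁)ᵀ + (cc γ.toBlocks₂₂)ᵀ) * (cc γ.toBlocks₁₁ * τ + cc γ.toBlocks₁₂) -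
      (τᴴ * (cc γ.toBlocks₁₁)ᵀ + (cc γ.toBlocks₁₂)ᵀ) * (cc γ.toBlocks₂₁ * τ + cc γ.toBlocks₂₂) =
      τᴴ * ((cc γ.toBlocks₂₁)ᵀ * cc γ.toBlocks₁₁ - (cc γ.toBlocks₁₁)ᵀ * cc γ.toBlocks₂₁) * τ -
      τᴴ * ((cc γ.toBlocks₁₁)ᵀ * cc γ.toBlocks₂₂ - (cc γ.toBlocks₂₁)ᵀ * cc γ.toBlocks₁₂) +
      ((cc γ.toBlocks₂₂)ᵀ * cc γ.toBlocks₁₁ - (cc γ.toBlocks₁₂)ᵀ * cc γ.toBlocks₂₁) * τ +
      ((cc γ.toBlocks₂₂)ᵀ * cc γ.toBlocks₁₂ - (cc γ.toBlocks₁₂)ᵀ * cc γ.toBlocks₂₂) := by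
    noncomm_ring
  rw [e, h1, h2, h3, h4]
  simp only [sub_self, Matrix.mul_zero, Matrix.zero_mul, Matrix.mul_one, Matrix.one_mul, add_zero,
    zero_sub]
  abel

theorem imc_posDef (hY : (τ.map Complex.im).PosDef) : (imc τ).PosDef := posDef_ofReal hY

/-- the denominator is invertible on the Siegel upper half-space -/
theorem isUnit_den (h : γ ∈ Matrix.symplecticGroup (Fin g) ℤ) (hτ : τᵀ = τ)
    (hY : (τ.map Complex.im).PosDef) : IsUnit (den γ τ).det := by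
  rw [isUnit_iff_ne_zero]
  intro h0
  obtain ⟨v, hv, hv0⟩ := Matrix.exists_mulVec_eq_zero_iff.2 h0
  have h1 := den_num_conjTranspose h hτ
  have h2 := congrArg (fun M => star v ⬝ᵥ (M *ᵥ v)) h1
  simp only [Matrix.sub_mulVec, ← Matrix.mulVec_mulVec, hv0, Matrix.mulVec_zero, sub_zero,
    Matrix.smul_mulVec, dotProduct_smul] at h2
  rw [Matrix.dotProduct_mulVec, ← Matrix.star_mulVec, hv0] at h2
  simp only [star_zero, zero_dotProduct, smul_eq_mul] at h2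
  have h3 := (imc_posDef hY).dotProduct_mulVec_pos hv
  have h4 : (2 * I : ℂ) ≠ 0 := by simp
  have h5 := (mul_eq_zero.1 h2.symm).resolve_left h4
  rw [h5] at h3
  exact lt_irrefl _ h3

theorem num_eq (h : γ ∈ Matrix.symplecticGroup (Fin g) ℤ) (hτ : τᵀ = τ)
    (hY : (τ.map Complex.im).PosDef) : act γ τ * den γ τ = num γ τ := by
  rw [act_eq, Matrix.mul_assoc, Matrix.nonsing_inv_mul _ (isUnit_den h hτ hY), Matrix.mul_one]

theorem act_symm (h : γ ∈ Matrix.symplecticGroup (Fin g) ℤ) (hτ : τᵀ = τ)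
    (hY : (τ.map Complex.im).PosDef) : (act γ τ)ᵀ = act γ τ := by
  have hu := isUnit_den h hτ hY
  have hu' : IsUnit ((den γ τ)ᵀ).det := by rwa [Matrix.det_transpose]
  have h1 := den_num_transpose h hτ
  rw [← num_eq h hτ hY, Matrix.transpose_mul] at h1
  have h2 : (den γ τ)ᵀ * (act γ τ) * den γ τ = (den γ τ)ᵀ * (act γ τ)ᵀ * den γ τ := by
    rw [Matrix.mul_assoc, h1]
  have h3 := congrArg (fun M => M * (den γ τ)⁻¹) h2
  simp only [Matrix.mul_assoc, Matrix.mul_nonsing_inv _ hu, Matrix.mul_one] at h3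
  have h4 := congrArg (fun M => ((den γ τ)ᵀ)⁻¹ * M) h3
  simp only [← Matrix.mul_assoc, Matrix.nonsing_inv_mul _ hu', Matrix.one_mul] at h4
  exact h4.symm

/-- the transformation of the imaginary part -/
theorem im_act (h : γ ∈ Matrix.symplecticGroup (Fin g) ℤ) (hτ : τᵀ = τ)
    (hY : (τ.map Complex.im).PosDef) : (den γ τ)ᴴ * imc (act γ τ) * den γ τ = imc τ := by
  have h1 := den_num_conjTranspose h hτ
  have h2 := sub_conjTranspose (act γ τ) (act_symm h hτ hY)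
  rw [← num_eq h hτ hY, Matrix.conjTranspose_mul] at h1
  have h3 : (den γ τ)ᴴ * (act γ τ - (act γ τ)ᴴ) * den γ τ = (2 * I) • imc τ := by
    rw [← h1]; noncomm_ring
  rw [h2] at h3
  have h4 : (2 * I : ℂ) ≠ 0 := by simp
  have h5 : (2 * I) • ((den γ τ)ᴴ * imc (act γ τ) * den γ τ) = (2 * I) • imc τ := by
    rw [← h3]; simp [Matrix.mul_smul, Matrix.smul_mul]
  exact smul_right_injective _ h4 h5

theorem act_posDef (h : γ ∈ Matrix.symplecticGroup (Fin g) ℤ) (hτ : τᵀ = τ)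
    (hY : (τ.map Complex.im).PosDef) : ((act γ τ).map Complex.im).PosDef := by
  apply of_posDef_ofReal
  have hu := isUnit_den h hτ hY
  have h1 := im_act h hτ hY
  have hu' : IsUnit ((den γ τ)ᴴ).det := by
    rw [Matrix.det_conjTranspose]; exact hu.star
  have h2 : imc (act γ τ) = ((den γ τ)⁻¹)ᴴ * imc τ * (den γ τ)⁻¹ := by
    rw [← h1]
    rw [Matrix.conjTranspose_nonsing_inv]
    simp only [Matrix.mul_assoc, Matrix.mul_nonsing_inv _ hu, Matrix.mul_one]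
    rw [← Matrix.mul_assoc, Matrix.nonsing_inv_mul _ hu', Matrix.one_mul]
  change (imc (act γ τ)).PosDef
  rw [h2]
  refine (imc_posDef hY).conjTranspose_mul_mul_same ?_
  intro v w hvw
  have := congrArg (fun x => den γ τ *ᵥ x) hvw
  simpa [Matrix.mulVec_mulVec, Matrix.mul_nonsing_inv _ hu] using this

end

end Pool.Agent.K9h86.Th
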