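import Mathlib

/-!
# The second order theta constant map on `A_g(2,4)`: definitions
-/

set_option autoImplicit false

open Matrix Complex Filter Topology
open scoped Matrix.Norms.Elementwise Real

namespace Pool.Agent.K9h86.Th

/-- The Siegel upper half-space `H_g`: the symmetric complex `g × g` matrices with positive
definite imaginary part, with the subspace topology. -/
abbrev SiegelSpace (g : ℕ) : Type :=
  {τ : Matrix (Fin g) (Fin g) ℂ // τᵀ = τ ∧ (τ.map Complex.im).PosDef}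

/-- The group `Γ_g(2,4)`: the matrices `γ = (a b; c d)` in `Sp(2g, ℤ)` with `γ ≡ 1 mod 2` and
`diag (a bᵗ) ≡ diag (c dᵗ) ≡ 0 mod 4`. -/
def Gamma24 (g : ℕ) : Set (Matrix (Fin g ⊕ Fin g) (Fin g ⊕ Fin g) ℤ) :=
  {γ | γ ∈ Matrix.symplecticGroup (Fin g) ℤ ∧ (∀ i j, (2 : ℤ) ∣ (γ - 1) i j) ∧
    (∀ i, (4 : ℤ) ∣ (γ.toBlocks₁₁ * γ.toBlocks₁₂ᵀ) i i) ∧
    (∀ i, (4 : ℤ) ∣ (γ.toBlocks₂₁ * γ.toBlocks₂₂ᵀ) i i)}

/-- The action `γ τ = (a τ + b) (c τ + d)⁻¹` for `γ = (a b; c d)`. -/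
noncomputable def act {g : ℕ} (γ : Matrix (Fin g ⊕ Fin g) (Fin g ⊕ Fin g) ℤ)
    (τ : Matrix (Fin g) (Fin g) ℂ) : Matrix (Fin g) (Fin g) ℂ :=
  (γ.toBlocks₁₁.map (Int.cast : ℤ → ℂ) * τ + γ.toBlocks₁₂.map (Int.cast : ℤ → ℂ)) *
    (γ.toBlocks₂₁.map (Int.cast : ℤ → ℂ) * τ + γ.toBlocks₂₂.map (Int.cast : ℤ → ℂ))⁻¹

/-- The quotient `A_g(2,4) = H_g / Γ_g(2,4)`, with the quotient topology. -/
def A24 (g : ℕ) : Type :=
  Quot fun τ τ' : SiegelSpace g => ∃ γ ∈ Gamma24 g, τ'.1 = act γ τ.1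

noncomputable instance (g : ℕ) : TopologicalSpace (A24 g) := instTopologicalSpaceQuot

/-- The quotient map `H_g → A_g(2,4)`. -/
def toA24 {g : ℕ} (τ : SiegelSpace g) : A24 g := Quot.mk _ τ

/-- `φ : H_g → ℂ` is holomorphic near the point `τ`: near `τ` it is given by a function of the
matrix entries that is complex analytic at `τ`. -/
def HolomorphicNear {g : ℕ} (φ : SiegelSpace g → ℂ) (τ : SiegelSpace g) : Prop :=
  ∃ Φ : Matrix (Fin g) (Fin g) ℂ → ℂ, AnalyticAt ℂ Φ τ.1 ∧ ∀ᶠ σ in 𝓝 τ, φ σ = Φ σ.1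

/-- The structure sheaf of the complex analytic space `A_g(2,4) = H_g / Γ_g(2,4)`: a function `f`
on an open subset `U` of `A_g(2,4)` is holomorphic if its pull-back to `H_g` is holomorphic near
every point lying over `U`. -/
def HolomorphicOnA24 {g : ℕ} (f : A24 g → ℂ) (U : Set (A24 g)) : Prop :=
  ∀ τ : SiegelSpace g, toA24 τ ∈ U → HolomorphicNear (fun σ => f (toA24 σ)) τ

/-- The theta function with characteristic
`θ[ε, δ](τ, z) = ∑_{n ∈ ℤ^g} exp (π i (n + ε)ᵗ (τ (n + ε) + 2 (z + δ)))`. -/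
noncomputable def theta {g : ℕ} (ε δ : Fin g → ℂ) (τ : Matrix (Fin g) (Fin g) ℂ)
    (z : Fin g → ℂ) : ℂ :=
  ∑' n : Fin g → ℤ, cexp (π * I * ((fun i => (n i : ℂ) + ε i) ⬝ᵥ
    (τ *ᵥ (fun i => (n i : ℂ) + ε i) + (2 : ℂ) • (z + δ))))

/-- The vector of the `2^g` second order theta constants `Θ[ε](τ) = θ[ε, 0](2 τ, 0)`, where
`ε = e / 2` with `e ∈ {0, 1}^g`. The theta map `Th` is `τ ↦ [Θ[ε](τ)]_ε`. -/
noncomputable def thetaConstants {g : ℕ} (τ : SiegelSpace g) : (Fin g → Fin 2) → ℂ :=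
  fun e => theta (fun i => (((e i : Fin 2) : ℕ) : ℂ) / 2) 0 ((2 : ℂ) • τ.1) 0

end Pool.Agent.K9h86.Th
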