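import Pool.Agent.K9h86.Th.Group

/-!
# A holomorphic function near the point `i` of `A_g(2,4)`
-/

set_option autoImplicit false

open Matrix Complex Filter Topology
open scoped Matrix.Norms.Elementwise Real ComplexOrder

namespace Pool.Agent.K9h86.Th

variable {g : ℕ}

section analytic

variable {E : Type*} [NormedAddCommGroup E] [NormedSpace ℂ E]

theorem analyticAt_det {n : Type*} [Fintype n] [DecidableEq n] {P : E → Matrix n n ℂ} {x : E}
    (h : ∀ i j, AnalyticAt ℂ (fun M => P M i j) x) : AnalyticAt ℂ (fun M => (P M).det) x := by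
  simp only [Matrix.det_apply']
  refine Finset.analyticAt_fun_sum _ fun σ _ => ?_
  exact analyticAt_const.mul (Finset.analyticAt_fun_prod _ fun i _ => h _ _)

theorem analyticAt_mul {n : Type*} [Fintype n] [DecidableEq n] {P Q : E → Matrix n n ℂ} {x : E}
    (hP : ∀ i j, AnalyticAt ℂ (fun M => P M i j) x) (hQ : ∀ i j, AnalyticAt ℂ (fun M => Q M i j) x)
    (i j : n) : AnalyticAt ℂ (fun M => (P M * Q M) i j) x := by
  simp only [Matrix.mul_apply]
  exact Finset.analyticAt_fun_sum _ fun k _ => (hP i k).mul (hQ k j)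

theorem analyticAt_inv {n : Type*} [Fintype n] [DecidableEq n] {P : E → Matrix n n ℂ} {x : E}
    (hP : ∀ i j, AnalyticAt ℂ (fun M => P M i j) x) (hx : (P x).det ≠ 0)
    (i j : n) : AnalyticAt ℂ (fun M => ((P M)⁻¹) i j) x := by
  simp only [Matrix.inv_def, Matrix.smul_apply, Ring.inverse_eq_inv', smul_eq_mul]
  refine ((analyticAt_det hP).inv hx).mul ?_
  simp only [Matrix.adjugate_apply]
  refine analyticAt_det fun k l => ?_
  simp only [Matrix.updateRow_apply]
  by_cases hk : k = j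
  · simp only [hk, if_true]; exact analyticAt_const
  · simp only [hk, if_false]; exact hP k l

end analytic

theorem analyticAt_entry (τ : Matrix (Fin g) (Fin g) ℂ) (i j : Fin g) :
    AnalyticAt ℂ (fun M : Matrix (Fin g) (Fin g) ℂ => M i j) τ := by
  have := ((ContinuousLinearMap.proj (R := ℂ) (φ := fun _ : Fin g => ℂ) j).comp
    (ContinuousLinearMap.proj (R := ℂ) (φ := fun _ : Fin g => Fin g → ℂ) i)).analyticAt τ
  exact this

theorem analyticAt_act {γ : Matrix (Fin g ⊕ Fin g) (Fin g ⊕ Fin g) ℤ}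
    {τ : Matrix (Fin g) (Fin g) ℂ} (h : (den γ τ).det ≠ 0) (i j : Fin g) :
    AnalyticAt ℂ (fun M => act γ M i j) τ := by
  have hlin : ∀ (A B : Matrix (Fin g) (Fin g) ℂ) (i j : Fin g),
      AnalyticAt ℂ (fun M : Matrix (Fin g) (Fin g) ℂ => (A * M + B) i j) τ := by
    intro A B i j
    simp only [Matrix.add_apply]
    exact (analyticAt_mul (P := fun _ => A) (Q := fun M => M) (fun _ _ => analyticAt_const)
      (fun i j => analyticAt_entry τ i j) i j).add analyticAt_const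
  simp only [act_eq]
  refine analyticAt_mul (P := fun M => num γ M) (Q := fun M => (den γ M)⁻¹) (fun i j => hlin _ _ i j)
    (fun i j => analyticAt_inv (P := fun M => den γ M) (fun i j => hlin _ _ i j) h i j) i j

/-- the product of four entries of `τ` along the cycle `a, b, c, d` -/
def cyc (a b c d : Fin g) (τ : Matrix (Fin g) (Fin g) ℂ) : ℂ := τ a b * τ b c * τ c d * τ d a

theorem analyticAt_cyc_act {γ : Matrix (Fin g ⊕ Fin g) (Fin g ⊕ Fin g) ℤ}
    {τ : Matrix (Fin g) (Fin g) ℂ} (h : (den γ τ).det ≠ 0) (a b c d : Fin g) :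
    AnalyticAt ℂ (fun M => cyc a b c d (act γ M)) τ := by
  simp only [cyc]
  exact (((analyticAt_act h a b).mul (analyticAt_act h b c)).mul (analyticAt_act h c d)).mul
    (analyticAt_act h d a)

theorem cyc_signs {τ σ : Matrix (Fin g) (Fin g) ℂ} {ε : Fin g → ℂ} (h : ∀ i, ε i * ε i = 1)
    (h' : ∀ i j, σ i j = ε i * ε j * τ i j) (a b c d : Fin g) :
    cyc a b c d σ = cyc a b c d τ := by
  simp only [cyc, h']
  linear_combination (τ a b * τ b c * τ c d * τ d a) *
    (ε b * ε b * (ε c * ε c) * (ε d * ε d) * h a + ε c * ε c * (ε d * ε d) * h b +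
      ε d * ε d * h c + h d)

/-- The points of `H_g` that `Γ_g(2)` moves to the neighbourhood of `i`. -/
def U0 (g : ℕ) : Set (SiegelSpace g) := {τ | ∃ γ ∈ Gamma2 g, Near (act γ τ.1)}

theorem cyc_well_defined {τ : SiegelSpace g} {γ γ' : Matrix (Fin g ⊕ Fin g) (Fin g ⊕ Fin g) ℤ}
    (h : γ ∈ Gamma2 g) (h' : γ' ∈ Gamma2 g) (hn : Near (act γ τ.1)) (hn' : Near (act γ' τ.1))
    (a b c d : Fin g) : cyc a b c d (act γ' τ.1) = cyc a b c d (act γ τ.1) := by
  obtain ⟨δ, hδ, h1, h2⟩ := Gamma2_inv h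
  have h3 : γ' * δ ∈ Gamma2 g := Gamma2_mul h' hδ
  have h4 : act (γ' * δ) (act γ τ.1) = act γ' τ.1 := by
    rw [← act_mul h.1 τ.2.1 τ.2.2, Matrix.mul_assoc, h1, Matrix.mul_one]
  have hs := act_symm h.1 τ.2.1 τ.2.2
  have hp := act_posDef h.1 τ.2.1 τ.2.2
  obtain ⟨ε, hε, h5⟩ := near_signs h3 hs hp hn (by rw [h4]; exact hn')
  rw [h4] at h5
  exact cyc_signs hε h5 a b c d

open Classical in
/-- The function `τ_ab τ_bc τ_cd τ_da` near `i`, extended to the `Γ_g(2)`-translates. -/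
noncomputable def f0 (a b c d : Fin g) (τ : SiegelSpace g) : ℂ :=
  if h : ∃ γ ∈ Gamma2 g, Near (act γ τ.1) then cyc a b c d (act h.choose τ.1) else 0

theorem f0_eq (a b c d : Fin g) {τ : SiegelSpace g}
    {γ : Matrix (Fin g ⊕ Fin g) (Fin g ⊕ Fin g) ℤ} (h : γ ∈ Gamma2 g) (hn : Near (act γ τ.1)) :
    f0 a b c d τ = cyc a b c d (act γ τ.1) := by
  have hex : ∃ γ ∈ Gamma2 g, Near (act γ τ.1) := ⟨γ, h, hn⟩
  rw [f0, dif_pos hex]
  exact cyc_well_defined h hex.choose_spec.1 hn hex.choose_spec.2 a b c d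

/-- the translates -/
theorem U0_iff {τ τ' : SiegelSpace g} {γ : Matrix (Fin g ⊕ Fin g) (Fin g ⊕ Fin g) ℤ}
    (h : γ ∈ Gamma2 g) (e : τ'.1 = act γ τ.1) : τ ∈ U0 g ↔ τ' ∈ U0 g := by
  obtain ⟨δ, hδ, h1, h2⟩ := Gamma2_inv h
  constructor
  · rintro ⟨β, hβ, hn⟩
    refine ⟨β * δ, Gamma2_mul hβ hδ, ?_⟩
    rwa [e, ← act_mul h.1 τ.2.1 τ.2.2, Matrix.mul_assoc, h1, Matrix.mul_one]
  · rintro ⟨β, hβ, hn⟩
    refine ⟨β * γ, Gamma2_mul hβ h, ?_⟩
    rwa [act_mul h.1 τ.2.1 τ.2.2, ← e]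

theorem f0_invariant (a b c d : Fin g) {τ τ' : SiegelSpace g}
    {γ : Matrix (Fin g ⊕ Fin g) (Fin g ⊕ Fin g) ℤ}
    (h : γ ∈ Gamma2 g) (e : τ'.1 = act γ τ.1) : f0 a b c d τ = f0 a b c d τ' := by
  by_cases hτ : τ' ∈ U0 g
  · obtain ⟨β, hβ, hn⟩ := hτ
    rw [f0_eq a b c d hβ hn]
    have : act (β * γ) τ.1 = act β τ'.1 := by rw [act_mul h.1 τ.2.1 τ.2.2, ← e]
    rw [f0_eq a b c d (Gamma2_mul hβ h) (by rw [this]; exact hn), this]
  · have hτ' : τ ∉ U0 g := fun h0 => hτ ((U0_iff h e).1 h0)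
    have h1 : ¬ ∃ γ ∈ Gamma2 g, Near (act γ τ'.1) := hτ
    have h2 : ¬ ∃ γ ∈ Gamma2 g, Near (act γ τ.1) := hτ'
    rw [f0, f0, dif_neg h1, dif_neg h2]

/-- near a point of `U0`, a given translate stays near `i` -/
theorem eventually_near {τ : SiegelSpace g} {γ : Matrix (Fin g ⊕ Fin g) (Fin g ⊕ Fin g) ℤ}
    (h : γ ∈ Gamma2 g) (hn : Near (act γ τ.1)) : ∀ᶠ σ : SiegelSpace g in 𝓝 τ, Near (act γ σ.1) := by
  have hdet : (den γ τ.1).det ≠ 0 := (isUnit_den h.1 τ.2.1 τ.2.2).ne_zero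
  have hcont : ∀ i j, ContinuousAt (fun σ : SiegelSpace g => act γ σ.1 i j) τ := by
    intro i j
    have h1 : ContinuousAt (fun M => act γ M i j) τ.1 := (analyticAt_act hdet i j).continuousAt
    exact ContinuousAt.comp (f := fun σ : SiegelSpace g => σ.1) h1
      (continuous_subtype_val.continuousAt)
  simp only [Near]
  rw [eventually_all]
  intro i
  rw [eventually_all]
  intro j
  have h2 : ContinuousAt (fun σ : SiegelSpace g =>
      ‖act γ σ.1 i j - (if i = j then I else 0)‖) τ := ((hcont i j).sub continuousAt_const).norm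
  exact h2.eventually_lt continuousAt_const (hn i j)

theorem isOpen_U0 : IsOpen (U0 g) := by
  rw [isOpen_iff_eventually]
  rintro τ ⟨γ, h, hn⟩
  filter_upwards [eventually_near h hn] with σ hσ
  exact ⟨γ, h, hσ⟩

theorem f0_holomorphic (a b c d : Fin g) {τ : SiegelSpace g} (hτ : τ ∈ U0 g) :
    HolomorphicNear (f0 a b c d) τ := by
  obtain ⟨γ, h, hn⟩ := hτ
  have hdet : (den γ τ.1).det ≠ 0 := (isUnit_den h.1 τ.2.1 τ.2.2).ne_zero
  refine ⟨fun M => cyc a b c d (act γ M), analyticAt_cyc_act hdet a b c d, ?_⟩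
  filter_upwards [eventually_near h hn] with σ hσ
  exact f0_eq a b c d h hσ

/-- the function on `A_g(2,4)` -/
noncomputable def fA (a b c d : Fin g) : A24 g → ℂ :=
  Quot.lift (f0 a b c d) (by
    rintro τ τ' ⟨γ, hγ, e⟩
    exact f0_invariant a b c d (Gamma24_subset hγ) e)

/-- the open subset of `A_g(2,4)` on which it is holomorphic -/
def UA (g : ℕ) : Set (A24 g) :=
  {x | Quot.lift (fun τ : SiegelSpace g => τ ∈ U0 g) (by
    rintro τ τ' ⟨γ, hγ, e⟩
    exact propext (U0_iff (Gamma24_subset hγ) e)) x}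

theorem isOpen_UA : IsOpen (UA g) := by
  have : IsOpen ((fun τ : SiegelSpace g => (Quot.mk _ τ : A24 g)) ⁻¹' UA g) := isOpen_U0
  exact isOpen_coinduced.2 this

theorem fA_holomorphic (a b c d : Fin g) : HolomorphicOnA24 (fA a b c d) (UA g) := by
  intro τ hτ
  exact f0_holomorphic a b c d hτ

theorem fA_near (a b c d : Fin g) {τ : SiegelSpace g} (hn : Near τ.1) :
    fA a b c d (toA24 τ) = cyc a b c d τ.1 := by
  change f0 a b c d τ = _
  rw [f0_eq a b c d Gamma2_one (by rwa [act_one]), act_one]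

end Pool.Agent.K9h86.Th
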