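import Pool.Agent.K9h86.Th.Trig
import Pool.Agent.K9h86.Th.Quot

/-!
# The second order theta map is not an embedding for `g ≥ 4`
-/

set_option autoImplicit false

open Matrix Complex Filter Topology Asymptotics
open scoped Matrix.Norms.Elementwise Real

namespace Pool.Agent.K9h86.Th

variable {g : ℕ}

theorem strict_limit {V : Type*} [NormedAddCommGroup V] [NormedSpace ℂ V] {h : V → ℂ} {p L : V}
    (hh : AnalyticAt ℂ h p) {l : Filter ℝ} {A B : ℝ → V} (hA : Tendsto A l (𝓝 p))
    (hB : Tendsto B l (𝓝 p)) {c : ℝ → ℂ} (hL : Tendsto (fun z => c z • (A z - B z)) l (𝓝 L)) :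
    Tendsto (fun z => c z • (h (A z) - h (B z))) l (𝓝 (fderiv ℂ h p L)) := by
  have h1 := hh.hasStrictFDerivAt.isLittleO
  have h2 : Tendsto (fun z => (A z, B z)) l (𝓝 (p, p)) := hA.prodMk_nhds hB
  have h3 := h1.comp_tendsto h2
  have h4 : (fun z => c z • (h (A z) - h (B z) - fderiv ℂ h p (A z - B z))) =o[l]
      (fun z => c z • (A z - B z)) := (isBigO_refl c l).smul_isLittleO h3
  have h5 : (fun z => c z • (A z - B z)) =O[l] (fun _ => (1 : ℝ)) := hL.isBigO_one ℝ
  have h6 := (h4.trans_isBigO h5)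
  rw [isLittleO_one_iff] at h6
  have h7 : Tendsto (fun z => fderiv ℂ h p (c z • (A z - B z))) l (𝓝 (fderiv ℂ h p L)) :=
    ((fderiv ℂ h p).continuous.tendsto L).comp hL
  have h8 := h6.add h7
  rw [zero_add] at h8
  refine h8.congr fun z => ?_
  rw [map_smul, ← smul_add, sub_add_cancel]

/-- the symmetric matrix of an edge -/
def edge (a b : Fin g) : Matrix (Fin g) (Fin g) ℝ := Matrix.single a b 1 + Matrix.single b a 1

theorem edge_symm (a b : Fin g) : (edge a b)ᵀ = edge a b := by
  rw [edge, Matrix.transpose_add, Matrix.transpose_single, Matrix.transpose_single, add_comm]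

/-- the real part -/
def realPart (a b c d : Fin g) (s z : ℝ) : Matrix (Fin g) (Fin g) ℝ :=
  z • (s • edge a b + edge b c + edge c d + edge d a)

theorem realPart_symm (a b c d : Fin g) (s z : ℝ) :
    (realPart a b c d s z)ᵀ = realPart a b c d s z := by
  simp only [realPart, Matrix.transpose_smul, Matrix.transpose_add, edge_symm]

/-- the point `i + X` -/
noncomputable def mkPoint (X : Matrix (Fin g) (Fin g) ℝ) (hX : Xᵀ = X) : SiegelSpace g :=
  ⟨I • (1 : Matrix (Fin g) (Fin g) ℂ) + X.map (algebraMap ℝ ℂ), by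
    refine ⟨?_, ?_⟩
    · rw [Matrix.transpose_add, Matrix.transpose_smul, Matrix.transpose_one, ← Matrix.transpose_map, hX]
    · have : (I • (1 : Matrix (Fin g) (Fin g) ℂ) + X.map (algebraMap ℝ ℂ)).map Complex.im = 1 := by
        ext i j
        by_cases hij : i = j
        · subst hij; simp
        · simp [hij]
      rw [this]
      exact Matrix.PosDef.one⟩

theorem thetaConstants_mkPoint (X : Matrix (Fin g) (Fin g) ℝ) (hX : Xᵀ = X) (e : Fin g → Fin 2) :
    thetaConstants (mkPoint X hX) e =
      S e fun m => cexp (((2 * π * ∑ i, ∑ j, X i j * (m i * m j) : ℝ) : ℂ) * I) := by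
  rw [thetaConstants, theta, S]
  refine tsum_congr fun n => ?_
  have e1 : (fun i => (n i : ℂ) + (((e i : Fin 2) : ℕ) : ℂ) / 2) = fun i => ((pt e n i : ℝ) : ℂ) := by
    funext i; simp [pt]
  rw [e1, wt, Complex.ofReal_exp, ← Complex.exp_add]
  congr 1
  have e2 : (fun i => ((pt e n i : ℝ) : ℂ)) ⬝ᵥ (((2 : ℂ) • (mkPoint X hX).1) *ᵥ
      (fun i => ((pt e n i : ℝ) : ℂ)) + (2 : ℂ) • ((0 : Fin g → ℂ) + 0)) =
      2 * I * (∑ j, ((pt e n j : ℝ) : ℂ) ^ 2) +
        2 * ∑ i, ∑ j, (X i j : ℂ) * (((pt e n i : ℝ) : ℂ) * ((pt e n j : ℝ) : ℂ)) := by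
    simp only [mkPoint, add_zero, smul_zero, Matrix.smul_mulVec, dotProduct_smul,
      Matrix.add_mulVec, dotProduct_add, Matrix.one_mulVec, smul_eq_mul]
    simp only [dotProduct, mulVec, Matrix.map_apply, Complex.coe_algebraMap, Finset.mul_sum]
    rw [mul_add, Finset.mul_sum, Finset.mul_sum]
    simp only [Finset.mul_sum]
    congr 1
    · refine Finset.sum_congr rfl fun i _ => ?_
      ring
    · refine Finset.sum_congr rfl fun i _ => Finset.sum_congr rfl fun j _ => ?_
      ring
  rw [e2]
  push_cast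
  linear_combination (2 * π * ∑ j, ((pt e n j : ℝ) : ℂ) ^ 2) * Complex.I_mul_I

theorem quad_edge (a b : Fin g) (m : Fin g → ℝ) :
    ∑ i, ∑ j, edge a b i j * (m i * m j) = 2 * (m a * m b) := by
  have h1 : ∀ x y : Fin g, ∑ i, ∑ j, (Matrix.single x y (1 : ℝ)) i j * (m i * m j) = m x * m y := by
    intro x y
    rw [Finset.sum_eq_single x]
    · rw [Finset.sum_eq_single y]
      · simp
      · intro j _ hj; simp [Matrix.single_apply_of_col_ne _ _ hj.symm]
      · simp
    · intro i _ hi
      refine Finset.sum_eq_zero fun j _ => ?_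
      simp [Matrix.single_apply_of_row_ne hi.symm]
    · simp
  simp only [edge, Matrix.add_apply, add_mul, Finset.sum_add_distrib, h1]
  ring

theorem quad_realPart (a b c d : Fin g) (s z : ℝ) (m : Fin g → ℝ) :
    2 * π * ∑ i, ∑ j, realPart a b c d s z i j * (m i * m j) =
      s * ph z a b m + ph z b c m + ph z c d m + ph z d a m := by
  have h1 : ∑ i, ∑ j, realPart a b c d s z i j * (m i * m j) =
      z * (s * (∑ i, ∑ j, edge a b i j * (m i * m j)) + (∑ i, ∑ j, edge b c i j * (m i * m j)) +
        (∑ i, ∑ j, edge c d i j * (m i * m j)) + (∑ i, ∑ j, edge d a i j * (m i * m j))) := by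
    simp only [Finset.mul_sum, ← Finset.sum_add_distrib]
    refine Finset.sum_congr rfl fun i _ => Finset.sum_congr rfl fun j _ => ?_
    simp only [realPart, Matrix.smul_apply, Matrix.add_apply, smul_eq_mul]
    ring
  rw [h1, quad_edge, quad_edge, quad_edge, quad_edge]
  simp only [ph]
  ring

theorem thetaConstants_cycle (a b c d : Fin g) (s z : ℝ) (e : Fin g → Fin 2) :
    thetaConstants (mkPoint (realPart a b c d s z) (realPart_symm a b c d s z)) e =
      S e (chr a b c d s z) := by
  rw [thetaConstants_mkPoint]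
  congr 1
  funext m
  rw [quad_realPart, chr]

/-- the point `i` of the Siegel upper half-space -/
noncomputable def tau0 (g : ℕ) : SiegelSpace g := mkPoint 0 Matrix.transpose_zero

theorem thetaConstants_tau0 (e : Fin g → Fin 2) : thetaConstants (tau0 g) e = S e fun _ => 1 := by
  rw [tau0, thetaConstants_mkPoint]
  congr 1
  funext m
  simp

theorem thetaConstants_tau0_ne : thetaConstants (tau0 g) ≠ 0 := by
  intro h0
  have h1 := congrFun h0 0
  rw [thetaConstants_tau0, S, Pi.zero_apply] at h1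
  have h2 : (∑' n : Fin g → ℤ, (wt (0 : Fin g → Fin 2) n : ℂ) * 1) =
      ((∑' n : Fin g → ℤ, wt (0 : Fin g → Fin 2) n : ℝ) : ℂ) := by
    rw [Complex.ofReal_tsum]
    exact tsum_congr fun n => mul_one _
  rw [h2] at h1
  have h3 : 0 < ∑' n : Fin g → ℤ, wt (0 : Fin g → Fin 2) n :=
    (summable_wt _).tsum_pos (fun n => (wt_pos _ n).le) 0 (wt_pos _ 0)
  exact h3.ne' (by exact_mod_cast h1)

/-- the path through `i` -/
noncomputable def path (a b c d : Fin g) (s z : ℝ) : SiegelSpace g :=
  mkPoint (realPart a b c d s z) (realPart_symm a b c d s z)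

theorem path_apply (a b c d : Fin g) (s z : ℝ) (i j : Fin g) :
    (path a b c d s z).1 i j = (if i = j then I else 0) + ((realPart a b c d s z i j : ℝ) : ℂ) := by
  by_cases hij : i = j
  · subst hij; simp [path, mkPoint]
  · simp [path, mkPoint, hij]

theorem tendsto_path (a b c d : Fin g) (s : ℝ) :
    Tendsto (fun z : ℝ => path a b c d s z) (𝓝 0) (𝓝 (tau0 g)) := by
  rw [tendsto_subtype_rng]
  refine tendsto_pi_nhds.2 fun i => tendsto_pi_nhds.2 fun j => ?_
  have h1 : (tau0 g).1 i j = (if i = j then I else 0) + (((0 : ℝ) * ((s • edge a b + edge b c +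
      edge c d + edge d a) i j) : ℝ) : ℂ) := by
    by_cases hij : i = j
    · subst hij; simp [tau0, mkPoint]
    · simp [tau0, mkPoint, hij]
  have h2 : ∀ z : ℝ, (path a b c d s z).1 i j = (if i = j then I else 0) +
      ((z * ((s • edge a b + edge b c + edge c d + edge d a) i j) : ℝ) : ℂ) := by
    intro z
    rw [path_apply, realPart, Matrix.smul_apply, smul_eq_mul]
  have h3 : Continuous fun z : ℝ => (if i = j then I else 0) +
      ((z * ((s • edge a b + edge b c + edge c d + edge d a) i j) : ℝ) : ℂ) := by fun_prop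
  have h4 := h3.tendsto 0
  rw [← h1] at h4
  exact h4.congr fun z => (h2 z).symm

theorem near_tau0 (hg : 0 < g) : Near (tau0 g).1 := by
  intro i j
  have : (tau0 g).1 i j - (if i = j then I else 0) = 0 := by
    by_cases hij : i = j
    · subst hij; simp [tau0, mkPoint]
    · simp [tau0, mkPoint, hij]
  rw [this, norm_zero]
  have : (0 : ℝ) < g := by exact_mod_cast hg
  positivity

theorem eventually_near_tau0 (hg : 0 < g) : ∀ᶠ σ : SiegelSpace g in 𝓝 (tau0 g), Near σ.1 := by
  have := eventually_near (τ := tau0 g) Gamma2_one (by rw [act_one]; exact near_tau0 hg)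
  filter_upwards [this] with σ hσ
  rwa [act_one] at hσ

theorem mem_UA (hg : 0 < g) : toA24 (tau0 g) ∈ UA g := by
  change tau0 g ∈ U0 g
  exact ⟨1, Gamma2_one, by rw [act_one]; exact near_tau0 hg⟩

/-- the values of the four-cycle function along the paths -/
theorem cyc_path_same {a b c d : Fin g} (hab : a ≠ b) (hac : a ≠ c) (had : a ≠ d)
    (hbc : b ≠ c) (hbd : b ≠ d) (hcd : c ≠ d) (s z : ℝ) :
    cyc a b c d (path a b c d s z).1 = ((s * z ^ 4 : ℝ) : ℂ) := by
  simp only [cyc, path_apply, realPart, edge, Matrix.smul_apply, Matrix.add_apply,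
    Matrix.single_apply, smul_eq_mul]
  simp only [hab, hac, had, hbc, hbd, hcd, hab.symm, hac.symm, had.symm, hbc.symm, hbd.symm,
    hcd.symm, and_true, true_and, and_false, false_and, if_true, if_false, and_self]
  push_cast
  ring

theorem cyc_path_other {a b c d : Fin g} (hab : a ≠ b) (hac : a ≠ c) (had : a ≠ d)
    (hbc : b ≠ c) (hbd : b ≠ d) (hcd : c ≠ d) (s z : ℝ) :
    cyc a b c d (path a c b d s z).1 = 0 := by
  have : (path a c b d s z).1 a b = 0 := by
    simp only [path_apply, realPart, edge, Matrix.smul_apply, Matrix.add_apply,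
      Matrix.single_apply, smul_eq_mul]
    simp only [hab, hac, had, hbc, hbd, hcd, hab.symm, hac.symm, had.symm, hbc.symm, hbd.symm,
      hcd.symm, and_true, true_and, and_false, false_and, if_true, if_false, and_self]
    simp
  rw [cyc, this, zero_mul, zero_mul, zero_mul]

theorem lim4_swap (e : Fin g → Fin 2) (a b c d : Fin g) : lim4 e a c b d = lim4 e a b c d := by
  rw [lim4, lim4]
  congr 1
  funext m
  congr 1
  ring

/-- The function `τ_ab τ_bc τ_cd τ_da` is near `i` not a holomorphic function of the second order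
theta constants. -/
theorem not_factor (hg : 0 < g) {a b c d : Fin g} (hab : a ≠ b) (hac : a ≠ c) (had : a ≠ d)
    (hbc : b ≠ c) (hbd : b ≠ d) (hcd : c ≠ d) :
    ¬ ∃ h : ((Fin g → Fin 2) → ℂ) → ℂ, AnalyticAt ℂ h (thetaConstants (tau0 g)) ∧
      ∀ᶠ σ in 𝓝 (tau0 g), fA a b c d (toA24 σ) = h (thetaConstants σ) := by
  rintro ⟨h, hh, hf⟩
  -- along the path of a cycle
  have main : ∀ (a' b' c' d' : Fin g), a' ≠ b' → a' ≠ c' → a' ≠ d' → b' ≠ c' → b' ≠ d' →
      c' ≠ d' → Tendsto (fun z : ℝ => (((2 * z ^ 4 : ℝ) : ℂ))⁻¹ •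
        (cyc a b c d (path a' b' c' d' 1 z).1 - cyc a b c d (path a' b' c' d' (-1) z).1))
        (𝓝[≠] 0) (𝓝 (fderiv ℂ h (thetaConstants (tau0 g)) fun e => lim4 e a' b' c' d')) := by
    intro a' b' c' d' h1 h2 h3 h4 h5 h6
    have hlim : ∀ s : ℝ, Tendsto (fun z : ℝ => thetaConstants (path a' b' c' d' s z)) (𝓝[≠] 0)
        (𝓝 (thetaConstants (tau0 g))) := by
      intro s
      rw [tendsto_pi_nhds]
      intro e
      rw [thetaConstants_tau0]
      refine ((tendsto_chr e a' b' c' d' s).mono_left nhdsWithin_le_nhds).congr fun z => ?_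
      exact (thetaConstants_cycle a' b' c' d' s z e).symm
    have hL : Tendsto (fun z : ℝ => (((2 * z ^ 4 : ℝ) : ℂ))⁻¹ •
        (thetaConstants (path a' b' c' d' 1 z) - thetaConstants (path a' b' c' d' (-1) z)))
        (𝓝[≠] 0) (𝓝 fun e => lim4 e a' b' c' d') := by
      rw [tendsto_pi_nhds]
      intro e
      refine (tendsto_diff e h1 h2 h3 h4 h5 h6).congr fun z => ?_
      rw [Pi.smul_apply, Pi.sub_apply, smul_eq_mul, path, path, thetaConstants_cycle,
        thetaConstants_cycle]
    have hlim' := strict_limit hh (hlim 1) (hlim (-1)) hL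
    refine hlim'.congr' ?_
    have hev : ∀ s : ℝ, ∀ᶠ z : ℝ in 𝓝[≠] 0,
        h (thetaConstants (path a' b' c' d' s z)) = cyc a b c d (path a' b' c' d' s z).1 := by
      intro s
      have t := (tendsto_path a' b' c' d' s).mono_left (nhdsWithin_le_nhds (s := {0}ᶜ))
      filter_upwards [t.eventually hf, t.eventually (eventually_near_tau0 hg)] with z hz1 hz2
      rw [← hz1, fA_near a b c d hz2]
    filter_upwards [hev 1, hev (-1)] with z hz1 hz2
    rw [hz1, hz2]
  have h1 := main a b c d hab hac had hbc hbd hcd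
  have h2 := main a c b d hac hab had hbc.symm hcd hbd
  have e1 : fderiv ℂ h (thetaConstants (tau0 g)) (fun e => lim4 e a b c d) = 1 := by
    refine tendsto_nhds_unique h1 (tendsto_const_nhds.congr' ?_)
    filter_upwards [self_mem_nhdsWithin] with z hz
    rw [cyc_path_same hab hac had hbc hbd hcd, cyc_path_same hab hac had hbc hbd hcd]
    have hz' : (z : ℂ) ≠ 0 := by exact_mod_cast hz
    push_cast
    rw [smul_eq_mul]
    field_simp
    ring
  have e2 : fderiv ℂ h (thetaConstants (tau0 g)) (fun e => lim4 e a c b d) = 0 := by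
    refine tendsto_nhds_unique h2 (tendsto_const_nhds.congr' ?_)
    filter_upwards with z
    rw [cyc_path_other hab hac had hbc hbd hcd, cyc_path_other hab hac had hbc hbd hcd]
    simp
  simp only [lim4_swap] at e2
  rw [e1] at e2
  exact one_ne_zero e2

end Pool.Agent.K9h86.Th
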