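import Pool.Agent.K9h86.Th.Action

/-!
# The group law, and the points near `i` identified by `Γ_g(2)`
-/

set_option autoImplicit false

open Matrix Complex Filter Topology
open scoped Matrix.Norms.Elementwise Real ComplexOrder

namespace Pool.Agent.K9h86.Th

variable {g : ℕ}

section comp

variable {γ γ' : Matrix (Fin g ⊕ Fin g) (Fin g ⊕ Fin g) ℤ} {τ : Matrix (Fin g) (Fin g) ℂ}

theorem blocks_mul (γ' γ : Matrix (Fin g ⊕ Fin g) (Fin g ⊕ Fin g) ℤ) :
    (γ' * γ).toBlocks₁₁ = γ'.toBlocks₁₁ * γ.toBlocks₁₁ + γ'.toBlocks₁₂ * γ.toBlocks₂₁ ∧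
    (γ' * γ).toBlocks₁₂ = γ'.toBlocks₁₁ * γ.toBlocks₁₂ + γ'.toBlocks₁₂ * γ.toBlocks₂₂ ∧
    (γ' * γ).toBlocks₂₁ = γ'.toBlocks₂₁ * γ.toBlocks₁₁ + γ'.toBlocks₂₂ * γ.toBlocks₂₁ ∧
    (γ' * γ).toBlocks₂₂ = γ'.toBlocks₂₁ * γ.toBlocks₁₂ + γ'.toBlocks₂₂ * γ.toBlocks₂₂ := by
  have h : γ' * γ = fromBlocks γ'.toBlocks₁₁ γ'.toBlocks₁₂ γ'.toBlocks₂₁ γ'.toBlocks₂₂ *
      fromBlocks γ.toBlocks₁₁ γ.toBlocks₁₂ γ.toBlocks₂₁ γ.toBlocks₂₂ := by
    rw [fromBlocks_toBlocks, fromBlocks_toBlocks]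
  rw [fromBlocks_multiply] at h
  rw [h]
  exact ⟨rfl, rfl, rfl, rfl⟩

theorem num_mul (h : γ ∈ Matrix.symplecticGroup (Fin g) ℤ) (hτ : τᵀ = τ)
    (hY : (τ.map Complex.im).PosDef) : num (γ' * γ) τ = num γ' (act γ τ) * den γ τ := by
  obtain ⟨e1, e2, -, -⟩ := blocks_mul γ' γ
  have h1 : num γ' (act γ τ) * den γ τ =
      cc γ'.toBlocks₁₁ * (act γ τ * den γ τ) + cc γ'.toBlocks₁₂ * den γ τ := by
    rw [num]; noncomm_ring
  rw [h1, num_eq h hτ hY, num, e1, e2]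
  simp only [num, den, cc_add, cc_mul]
  noncomm_ring

theorem den_mul (h : γ ∈ Matrix.symplecticGroup (Fin g) ℤ) (hτ : τᵀ = τ)
    (hY : (τ.map Complex.im).PosDef) : den (γ' * γ) τ = den γ' (act γ τ) * den γ τ := by
  obtain ⟨-, -, e1, e2⟩ := blocks_mul γ' γ
  have h1 : den γ' (act γ τ) * den γ τ =
      cc γ'.toBlocks₂₁ * (act γ τ * den γ τ) + cc γ'.toBlocks₂₂ * den γ τ := by
    rw [den]; noncomm_ring
  rw [h1, num_eq h hτ hY, den, e1, e2]
  simp only [num, den, cc_add, cc_mul]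
  noncomm_ring

theorem act_mul (h : γ ∈ Matrix.symplecticGroup (Fin g) ℤ) (hτ : τᵀ = τ)
    (hY : (τ.map Complex.im).PosDef) : act (γ' * γ) τ = act γ' (act γ τ) := by
  rw [act_eq, num_mul h hτ hY, den_mul h hτ hY, Matrix.mul_inv_rev, act_eq γ' (act γ τ)]
  rw [Matrix.mul_assoc, ← Matrix.mul_assoc (den γ τ), Matrix.mul_nonsing_inv _ (isUnit_den h hτ hY),
    Matrix.one_mul]

theorem act_one (τ : Matrix (Fin g) (Fin g) ℂ) :
    act (1 : Matrix (Fin g ⊕ Fin g) (Fin g ⊕ Fin g) ℤ) τ = τ := by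
  have e1 : (1 : Matrix (Fin g ⊕ Fin g) (Fin g ⊕ Fin g) ℤ).toBlocks₁₁ = 1 := by
    ext i j; simp [toBlocks₁₁, Matrix.one_apply]
  have e2 : (1 : Matrix (Fin g ⊕ Fin g) (Fin g ⊕ Fin g) ℤ).toBlocks₁₂ = 0 := by
    ext i j; simp [toBlocks₁₂]
  have e3 : (1 : Matrix (Fin g ⊕ Fin g) (Fin g ⊕ Fin g) ℤ).toBlocks₂₁ = 0 := by
    ext i j; simp [toBlocks₂₁]
  have e4 : (1 : Matrix (Fin g ⊕ Fin g) (Fin g ⊕ Fin g) ℤ).toBlocks₂₂ = 1 := by
    ext i j; simp [toBlocks₂₂, Matrix.one_apply]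
  have h0 : cc (0 : Matrix (Fin g) (Fin g) ℤ) = 0 := by ext i j; simp [cc]
  rw [act_eq, num, den, e1, e2, e3, e4, cc_one, h0]
  simp

end comp

/-- The principal congruence subgroup of level two. -/
def Gamma2 (g : ℕ) : Set (Matrix (Fin g ⊕ Fin g) (Fin g ⊕ Fin g) ℤ) :=
  {γ | γ ∈ Matrix.symplecticGroup (Fin g) ℤ ∧ (∀ i j, (2 : ℤ) ∣ (γ - 1) i j)}

theorem Gamma24_subset : Gamma24 g ⊆ Gamma2 g := fun _ h => ⟨h.1, h.2.1⟩

theorem Gamma2_mul {γ γ' : Matrix (Fin g ⊕ Fin g) (Fin g ⊕ Fin g) ℤ} (h : γ ∈ Gamma2 g)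
    (h' : γ' ∈ Gamma2 g) : γ * γ' ∈ Gamma2 g := by
  refine ⟨(Matrix.symplecticGroup (Fin g) ℤ).mul_mem h.1 h'.1, fun i j => ?_⟩
  have e : γ * γ' - 1 = γ * (γ' - 1) + (γ - 1) := by noncomm_ring
  rw [e, Matrix.add_apply, Matrix.mul_apply]
  refine dvd_add (Finset.dvd_sum fun k _ => ?_) (h.2 i j)
  exact Dvd.dvd.mul_left (h'.2 k j) _

theorem Gamma2_one : (1 : Matrix (Fin g ⊕ Fin g) (Fin g ⊕ Fin g) ℤ) ∈ Gamma2 g :=
  ⟨(Matrix.symplecticGroup (Fin g) ℤ).one_mem, fun i j => by simp⟩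

theorem Gamma2_inv {γ : Matrix (Fin g ⊕ Fin g) (Fin g ⊕ Fin g) ℤ} (h : γ ∈ Gamma2 g) :
    ∃ δ ∈ Gamma2 g, δ * γ = 1 ∧ γ * δ = 1 := by
  set G : Matrix.symplecticGroup (Fin g) ℤ := ⟨γ, h.1⟩ with hG
  refine ⟨(G⁻¹ : Matrix.symplecticGroup (Fin g) ℤ).1, ⟨(G⁻¹).2, fun i j => ?_⟩, ?_, ?_⟩
  · have e : (G⁻¹ : Matrix.symplecticGroup (Fin g) ℤ).1 - 1 =
        (-(G⁻¹ : Matrix.symplecticGroup (Fin g) ℤ).1) * (γ - 1) := by
      have h1 : (G⁻¹ : Matrix.symplecticGroup (Fin g) ℤ).1 * γ = 1 := by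
        exact congrArg Subtype.val (inv_mul_cancel G)
      rw [Matrix.mul_sub, Matrix.neg_mul, h1, Matrix.mul_one]
      abel
    rw [e, Matrix.mul_apply]
    exact Finset.dvd_sum fun k _ => Dvd.dvd.mul_left (h.2 k j) _
  · exact congrArg Subtype.val (inv_mul_cancel G)
  · exact congrArg Subtype.val (mul_inv_cancel G)

/-- The neighbourhood of `i` in which all entries are at distance less than `1 / (8 g)` from those
of `i`. -/
def Near (τ : Matrix (Fin g) (Fin g) ℂ) : Prop :=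
  ∀ i j, ‖τ i j - (if i = j then I else 0)‖ < 1 / (8 * (g : ℝ))

section discrete

variable {γ : Matrix (Fin g ⊕ Fin g) (Fin g ⊕ Fin g) ℤ} {τ : Matrix (Fin g) (Fin g) ℂ}

theorem near_im {τ : Matrix (Fin g) (Fin g) ℂ} (h : Near τ) (i j : Fin g) :
    |(τ i j).im - (if i = j then 1 else 0)| < 1 / (8 * (g : ℝ)) := by
  refine lt_of_le_of_lt ?_ (h i j)
  have := Complex.abs_im_le_norm (τ i j - (if i = j then I else 0))
  refine le_trans (le_of_eq ?_) this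
  congr 1
  by_cases hij : i = j <;> simp [hij]

/-- the quadratic form of the imaginary part near `i` -/
theorem near_quad {σ : Matrix (Fin g) (Fin g) ℂ} (h : Near σ) (u : Fin g → ℂ) :
    7 / 8 * ∑ j, ‖u j‖ ^ 2 ≤ (star u ⬝ᵥ (imc σ *ᵥ u)).re := by
  rcases Nat.eq_zero_or_pos g with hg | hg
  · subst hg; simp
  have hg' : (0 : ℝ) < g := by exact_mod_cast hg
  have e1 : star u ⬝ᵥ (imc σ *ᵥ u) = (∑ j, ((‖u j‖ ^ 2 : ℝ) : ℂ)) +
      ∑ i, ∑ j, (starRingEnd ℂ) (u i) * (((σ i j).im - (if i = j then 1 else 0) : ℝ) : ℂ) * u j := by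
    have e2 : (∑ j, ((‖u j‖ ^ 2 : ℝ) : ℂ)) =
        ∑ i, ∑ j, (starRingEnd ℂ) (u i) * (((if i = j then 1 else 0 : ℝ)) : ℂ) * u j := by
      refine Finset.sum_congr rfl fun i _ => ?_
      rw [Finset.sum_eq_single i]
      · simp only [if_true, Complex.ofReal_one, mul_one]
        rw [← Complex.normSq_eq_conj_mul_self, Complex.normSq_eq_norm_sq]
      · intro j _ hj
        simp [hj.symm]
      · simp
    rw [e2, ← Finset.sum_add_distrib]
    simp only [dotProduct, mulVec, Finset.mul_sum, imc, Matrix.map_apply]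
    refine Finset.sum_congr rfl fun i _ => ?_
    rw [← Finset.sum_add_distrib]
    refine Finset.sum_congr rfl fun j _ => ?_
    simp only [Pi.star_apply, RCLike.star_def, Complex.coe_algebraMap]
    push_cast
    ring
  have e3 : ‖∑ i, ∑ j, (starRingEnd ℂ) (u i) *
      (((σ i j).im - (if i = j then 1 else 0) : ℝ) : ℂ) * u j‖ ≤
      1 / (8 * (g : ℝ)) * (∑ i, ‖u i‖) ^ 2 := by
    rw [sq, Finset.sum_mul_sum, Finset.mul_sum]
    refine (norm_sum_le _ _).trans (Finset.sum_le_sum fun i _ => ?_)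
    rw [Finset.mul_sum]
    refine (norm_sum_le _ _).trans (Finset.sum_le_sum fun j _ => ?_)
    rw [norm_mul, norm_mul, RCLike.norm_conj, Complex.norm_real, Real.norm_eq_abs]
    have := (near_im h i j).le
    calc ‖u i‖ * |(σ i j).im - (if i = j then 1 else 0)| * ‖u j‖
        ≤ ‖u i‖ * (1 / (8 * (g : ℝ))) * ‖u j‖ := by gcongr
      _ = _ := by ring
  have e4 : (∑ i, ‖u i‖) ^ 2 ≤ g * ∑ j, ‖u j‖ ^ 2 := by
    have := sq_sum_le_card_mul_sum_sq (s := (Finset.univ : Finset (Fin g))) (f := fun i => ‖u i‖)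
    simpa using this
  have e5 : 1 / (8 * (g : ℝ)) * (∑ i, ‖u i‖) ^ 2 ≤ 1 / 8 * ∑ j, ‖u j‖ ^ 2 := by
    calc 1 / (8 * (g : ℝ)) * (∑ i, ‖u i‖) ^ 2 ≤ 1 / (8 * (g : ℝ)) * (g * ∑ j, ‖u j‖ ^ 2) := by
          gcongr
      _ = _ := by field_simp
  rw [e1, Complex.add_re]
  have e6 := (Complex.abs_re_le_norm (∑ i, ∑ j, (starRingEnd ℂ) (u i) *
      (((σ i j).im - (if i = j then 1 else 0) : ℝ) : ℂ) * u j)).trans (e3.trans e5)
  have e7 := neg_le_of_abs_le e6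
  have e8 : (∑ j, ((‖u j‖ ^ 2 : ℝ) : ℂ)).re = ∑ j, ‖u j‖ ^ 2 := by
    rw [← Complex.ofReal_sum, Complex.ofReal_re]
  rw [e8]
  linarith

/-- the columns of the denominator are short -/
theorem den_column (h : γ ∈ Matrix.symplecticGroup (Fin g) ℤ) (hτ : τᵀ = τ)
    (hY : (τ.map Complex.im).PosDef) (hn : Near τ) (hn' : Near (act γ τ)) (k : Fin g) :
    ∑ j, ‖den γ τ j k‖ ^ 2 ≤ 9 / 7 := by
  have hg : 0 < g := lt_of_le_of_lt (Nat.zero_le _) k.2
  have hg1 : (1 : ℝ) ≤ g := by exact_mod_cast hg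
  have h1 := near_quad hn' (fun j => den γ τ j k)
  have h2 := congrFun (congrFun (im_act h hτ hY) k) k
  have h3 : star (fun j => den γ τ j k) ⬝ᵥ (imc (act γ τ) *ᵥ (fun j => den γ τ j k)) =
      imc τ k k := by
    rw [← h2, Matrix.mul_apply]
    simp only [dotProduct, mulVec, Matrix.mul_apply, Finset.mul_sum, Finset.sum_mul,
      Matrix.conjTranspose_apply, Pi.star_apply]
    rw [Finset.sum_comm]
    refine Finset.sum_congr rfl fun i _ => Finset.sum_congr rfl fun j _ => ?_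
    ring
  rw [h3] at h1
  have h4 : (imc τ k k).re = (τ k k).im := by simp [imc]
  rw [h4] at h1
  have h5 := near_im hn k k
  simp only [if_true] at h5
  have h6 : 1 / (8 * (g : ℝ)) ≤ 1 / 8 := by
    apply one_div_le_one_div_of_le (by norm_num); linarith
  have h7 := (abs_lt.1 h5).2
  linarith

/-- the lower left block vanishes -/
theorem c_zero (h : γ ∈ Gamma2 g) (hτ : τᵀ = τ)
    (hY : (τ.map Complex.im).PosDef) (hn : Near τ) (hn' : Near (act γ τ)) (i j : Fin g) :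
    γ.toBlocks₂₁ i j = 0 := by
  have hg : 0 < g := lt_of_le_of_lt (Nat.zero_le _) i.2
  have hg1 : (1 : ℝ) ≤ g := by exact_mod_cast hg
  have : Nonempty (Fin g × Fin g) := ⟨(i, j)⟩
  obtain ⟨⟨j0, k0⟩, hmax⟩ := Finite.exists_max
    (fun p : Fin g × Fin g => |((γ.toBlocks₂₁ p.1 p.2 : ℤ) : ℝ)|)
  set C : ℝ := |((γ.toBlocks₂₁ j0 k0 : ℤ) : ℝ)| with hC
  have hC0 : 0 ≤ C := abs_nonneg _
  -- the imaginary part of the entry of the denominator
  have h1 : (den γ τ j0 k0).im = ∑ l, ((γ.toBlocks₂₁ j0 l : ℤ) : ℝ) * (τ l k0).im := by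
    simp [den, Matrix.mul_apply, cc, Complex.im_sum]
  have h2 : |(den γ τ j0 k0).im - ((γ.toBlocks₂₁ j0 k0 : ℤ) : ℝ)| ≤ C / 8 := by
    have e : (den γ τ j0 k0).im - ((γ.toBlocks₂₁ j0 k0 : ℤ) : ℝ) =
        ∑ l, ((γ.toBlocks₂₁ j0 l : ℤ) : ℝ) * ((τ l k0).im - (if l = k0 then 1 else 0)) := by
      rw [h1]
      simp only [mul_sub, Finset.sum_sub_distrib]
      congr 1
      simp
    rw [e]
    refine (Finset.abs_sum_le_sum_abs _ _).trans ?_
    have h3 : ∀ l ∈ (Finset.univ : Finset (Fin g)),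
        |((γ.toBlocks₂₁ j0 l : ℤ) : ℝ) * ((τ l k0).im - (if l = k0 then 1 else 0))| ≤
          C * (1 / (8 * (g : ℝ))) := by
      intro l _
      rw [abs_mul]
      have a1 := hmax (j0, l)
      have a2 := (near_im hn l k0).le
      exact mul_le_mul a1 a2 (abs_nonneg _) hC0
    refine (Finset.sum_le_sum h3).trans ?_
    rw [Finset.sum_const, Finset.card_univ, Fintype.card_fin, nsmul_eq_mul]
    have hg' : (g : ℝ) ≠ 0 := by positivity
    apply le_of_eq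
    field_simp
  have h3 : 7 / 8 * C ≤ |(den γ τ j0 k0).im| := by
    have := abs_sub_abs_le_abs_sub ((γ.toBlocks₂₁ j0 k0 : ℤ) : ℝ) (den γ τ j0 k0).im
    rw [abs_sub_comm] at this
    have h4 := this.trans h2
    linarith
  have h4 : |(den γ τ j0 k0).im| ^ 2 ≤ 9 / 7 := by
    refine le_trans ?_ (den_column h.1 hτ hY hn hn' k0)
    refine le_trans ?_ (Finset.single_le_sum (f := fun j => ‖den γ τ j k0‖ ^ 2)
      (fun j _ => by positivity) (Finset.mem_univ j0))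
    have := Complex.abs_im_le_norm (den γ τ j0 k0)
    have h0 : 0 ≤ |(den γ τ j0 k0).im| := abs_nonneg _
    gcongr
  have h5 : C < 2 := by
    by_contra hcon
    push Not at hcon
    have : (7 / 4 : ℝ) ≤ |(den γ τ j0 k0).im| := by linarith
    nlinarith
  have h6 : (γ.toBlocks₂₁ j0 k0) = 0 := by
    have h7 : (2 : ℤ) ∣ γ.toBlocks₂₁ j0 k0 := by
      have := h.2 (Sum.inr j0) (Sum.inl k0)
      simpa [Matrix.toBlocks₂₁] using this
    have h8 : |γ.toBlocks₂₁ j0 k0| < 2 := by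
      rw [hC, ← Int.cast_abs] at h5
      exact_mod_cast h5
    obtain ⟨m, hm⟩ := h7
    rw [hm, abs_lt] at h8
    have : m = 0 := by omega
    rw [hm, this, mul_zero]
  have h7 := hmax (i, j)
  have h8 : C = 0 := by rw [hC, h6]; simp
  rw [h8] at h7
  have := abs_eq_zero.1 (le_antisymm h7 (abs_nonneg _))
  exact_mod_cast this

/-- two points near `i` which are identified by `Γ_g(2)` differ by signs -/
theorem near_signs (h : γ ∈ Gamma2 g) (hτ : τᵀ = τ)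
    (hY : (τ.map Complex.im).PosDef) (hn : Near τ) (hn' : Near (act γ τ)) :
    ∃ ε : Fin g → ℂ, (∀ i, ε i * ε i = 1) ∧ ∀ i j, act γ τ i j = ε i * ε j * τ i j := by
  have hc : γ.toBlocks₂₁ = 0 := by
    ext i j; exact c_zero h hτ hY hn hn' i j
  have h0 : cc (0 : Matrix (Fin g) (Fin g) ℤ) = 0 := by ext i j; simp [cc]
  have hden : den γ τ = cc γ.toBlocks₂₂ := by
    rw [den, hc, h0, Matrix.zero_mul, zero_add]
  -- the diagonal entries of `d` are odd
  have hodd : ∀ k, ¬ (2 : ℤ) ∣ γ.toBlocks₂₂ k k := by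
    intro k hk
    have := h.2 (Sum.inr k) (Sum.inr k)
    have e : (γ - 1) (Sum.inr k) (Sum.inr k) = γ.toBlocks₂₂ k k - 1 := by
      simp [Matrix.toBlocks₂₂]
    rw [e] at this
    omega
  have hcol : ∀ k, ∑ j, (γ.toBlocks₂₂ j k) ^ 2 ≤ 1 := by
    intro k
    have h1 := den_column h.1 hτ hY hn hn' k
    rw [hden] at h1
    have h2 : ∑ j, ‖cc γ.toBlocks₂₂ j k‖ ^ 2 = ((∑ j, (γ.toBlocks₂₂ j k) ^ 2 : ℤ) : ℝ) := by
      push_cast
      refine Finset.sum_congr rfl fun j _ => ?_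
      rw [cc, Matrix.map_apply, Complex.norm_intCast, sq_abs]
    rw [h2] at h1
    have h3 : ((∑ j, (γ.toBlocks₂₂ j k) ^ 2 : ℤ) : ℝ) < 2 := by linarith
    have h4 : (∑ j, (γ.toBlocks₂₂ j k) ^ 2 : ℤ) < 2 := by exact_mod_cast h3
    omega
  have hdiag : ∀ k, (γ.toBlocks₂₂ k k) ^ 2 = 1 := by
    intro k
    have h1 := (Finset.single_le_sum (f := fun j => (γ.toBlocks₂₂ j k) ^ 2)
      (fun j _ => sq_nonneg _) (Finset.mem_univ k)).trans (hcol k)
    have h2 : γ.toBlocks₂₂ k k ≠ 0 := fun h0 => hodd k (by rw [h0]; exact dvd_zero _)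
    have h3 : 0 < (γ.toBlocks₂₂ k k) ^ 2 := by positivity
    exact le_antisymm h1 h3
  have hoff : ∀ j k, j ≠ k → γ.toBlocks₂₂ j k = 0 := by
    intro j k hjk
    have h1 : (γ.toBlocks₂₂ j k) ^ 2 + (γ.toBlocks₂₂ k k) ^ 2 ≤ 1 := by
      refine le_trans ?_ (hcol k)
      rw [← Finset.sum_pair (f := fun j => (γ.toBlocks₂₂ j k) ^ 2) hjk]
      exact Finset.sum_le_sum_of_subset_of_nonneg (Finset.subset_univ _)
        (fun i _ _ => sq_nonneg _)
    rw [hdiag k] at h1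
    have h2 : (γ.toBlocks₂₂ j k) ^ 2 ≤ 0 := by linarith
    exact pow_eq_zero_iff (two_ne_zero) |>.1 (le_antisymm h2 (sq_nonneg _))
  set ε : Fin g → ℤ := fun k => γ.toBlocks₂₂ k k with hε
  have hd : γ.toBlocks₂₂ = Matrix.diagonal ε := by
    ext i j
    by_cases hij : i = j
    · subst hij; simp [hε]
    · rw [hoff i j hij, Matrix.diagonal_apply_ne _ hij]
  have hεε : ∀ k, ε k * ε k = 1 := fun k => by rw [← sq]; exact hdiag k
  -- the upper left block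
  obtain ⟨-, -, h3⟩ := symp_blocks γ h.1
  rw [hc, Matrix.transpose_zero, Matrix.zero_mul, sub_zero, hd] at h3
  have ha : γ.toBlocks₁₁ = Matrix.diagonal ε := by
    ext i j
    have := congrFun (congrFun h3 j) i
    rw [Matrix.mul_diagonal, Matrix.transpose_apply] at this
    have e2 : γ.toBlocks₁₁ i j = (1 : Matrix (Fin g) (Fin g) ℤ) j i * ε i := by
      rw [← this, mul_assoc, hεε, mul_one]
    rw [e2]
    by_cases hij : i = j
    · subst hij; simp
    · rw [Matrix.one_apply_ne (Ne.symm hij), Matrix.diagonal_apply_ne _ hij, zero_mul]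
  -- the action
  have h4 := num_eq h.1 hτ hY
  have hccd : cc (Matrix.diagonal ε) = Matrix.diagonal (fun k => (ε k : ℂ)) := by
    ext i j
    by_cases hij : i = j
    · subst hij; simp [cc]
    · simp [cc, Matrix.diagonal_apply_ne _ hij]
  rw [hden, num, hd, ha, hccd] at h4
  have h5 : ∀ i j, act γ τ i j * (ε j : ℂ) = (ε i : ℂ) * τ i j + (γ.toBlocks₁₂ i j : ℂ) := by
    intro i j
    have := congrFun (congrFun h4 i) j
    rw [Matrix.mul_diagonal, Matrix.add_apply, Matrix.diagonal_mul] at this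
    exact this
  have hnorm : ∀ k, ‖(ε k : ℂ)‖ = 1 := by
    intro k
    have : ‖(ε k : ℂ)‖ * ‖(ε k : ℂ)‖ = 1 := by
      rw [← norm_mul, ← Int.cast_mul, hεε, Int.cast_one, norm_one]
    nlinarith [norm_nonneg (ε k : ℂ)]
  have hεc : ∀ k, (ε k : ℂ) * ε k = 1 := fun k => by exact_mod_cast hεε k
  have hb : ∀ i j, γ.toBlocks₁₂ i j = 0 := by
    intro i j
    have hg : 0 < g := lt_of_le_of_lt (Nat.zero_le _) i.2
    have hg1 : (1 : ℝ) ≤ g := by exact_mod_cast hg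
    have h6 : 1 / (8 * (g : ℝ)) ≤ 1 / 8 := by
      apply one_div_le_one_div_of_le (by norm_num); linarith
    have h7 : ‖(γ.toBlocks₁₂ i j : ℂ)‖ < 1 := by
      have e : (γ.toBlocks₁₂ i j : ℂ) = (act γ τ i j - (if i = j then I else 0)) * (ε j : ℂ) -
          (ε i : ℂ) * (τ i j - (if i = j then I else 0)) := by
        have h8 := h5 i j
        by_cases hij : i = j
        · subst hij
          simp only [if_true]
          linear_combination -h8
        · simp only [hij, if_false]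
          linear_combination -h8
      rw [e]
      refine (norm_sub_le _ _).trans_lt ?_
      rw [norm_mul, norm_mul, hnorm, hnorm, mul_one, one_mul]
      have := hn i j
      have := hn' i j
      linarith
    rw [Complex.norm_intCast, ← Int.cast_abs] at h7
    have h8 : |γ.toBlocks₁₂ i j| < 1 := by exact_mod_cast h7
    exact Int.abs_lt_one_iff.1 h8
  refine ⟨fun k => (ε k : ℂ), hεc, fun i j => ?_⟩
  have h6 := h5 i j
  rw [hb i j, Int.cast_zero, add_zero] at h6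
  calc act γ τ i j = act γ τ i j * (ε j : ℂ) * (ε j : ℂ) := by
        rw [mul_assoc, hεc, mul_one]
    _ = (ε i : ℂ) * τ i j * (ε j : ℂ) := by rw [h6]
    _ = _ := by ring

end discrete

end Pool.Agent.K9h86.Th
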