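import Pool.Agent.K9h86.Th.Defs

/-!
# Theta series at points `i + X` with `X` real
-/

set_option autoImplicit false

open Matrix Complex Filter Topology
open scoped Matrix.Norms.Elementwise Real

namespace Pool.Agent.K9h86.Th

variable {g : ℕ}

/-! ### Summability -/

theorem summable_pi_prod (g : ℕ) (φ : Fin g → ℤ → ℝ) (h0 : ∀ j k, 0 ≤ φ j k)
    (hs : ∀ j, Summable (φ j)) : Summable fun n : Fin g → ℤ => ∏ j, φ j (n j) := by
  induction g with
  | zero => exact Summable.of_finite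
  | succ g ih =>
    have ih' := ih (fun j => φ j.succ) (fun j k => h0 _ _) (fun j => hs _)
    set G : (Fin g → ℤ) → ℝ := fun n => ∏ j, φ j.succ (n j) with hG
    have hG0 : 0 ≤ G := fun n => Finset.prod_nonneg fun j _ => h0 _ _
    have hF0 : 0 ≤ φ 0 := fun k => h0 0 k
    have h1 := Summable.mul_of_nonneg (hs 0) ih' hF0 hG0
    rw [← (Fin.consEquiv (fun _ : Fin (g + 1) => ℤ)).summable_iff]
    refine h1.congr fun x => ?_
    rw [Function.comp_apply, Fin.prod_univ_succ]
    rfl

theorem summable_gauss_one {c ε : ℝ} (hc : 0 < c) (h0 : 0 ≤ ε) (h1 : ε ≤ 1 / 2) :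
    Summable fun k : ℤ => Real.exp (-c * ((k : ℝ) + ε) ^ 2) := by
  have hb : ∀ k : ℤ, Real.exp (-c * ((k : ℝ) + ε) ^ 2) ≤ Real.exp c * Real.exp (-c) ^ k.natAbs := by
    intro k
    rw [← Real.exp_nat_mul, ← Real.exp_add]
    apply Real.exp_le_exp.2
    have e : ((k.natAbs : ℕ) : ℝ) = |(k : ℝ)| := by
      rw [Nat.cast_natAbs, Int.cast_abs]
    rw [e]
    have key : |(k : ℝ)| - 1 ≤ ((k : ℝ) + ε) ^ 2 := by
      rcases le_or_gt 0 (k : ℝ) with hk | hk
      · rw [abs_of_nonneg hk]
        nlinarith [sq_nonneg ((k : ℝ) - 1), mul_nonneg hk h0, sq_nonneg ε]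
      · rw [abs_of_neg hk]
        have hk1 : (k : ℝ) ≤ -1 := by
          have : k < 0 := by exact_mod_cast hk
          have : k ≤ -1 := by omega
          exact_mod_cast this
        nlinarith [sq_nonneg ((k : ℝ) + 1), sq_nonneg ε, mul_nonneg (sub_nonneg.2 h1) (neg_nonneg.2 hk.le)]
    nlinarith
  refine Summable.of_nonneg_of_le (fun k => (Real.exp_pos _).le) hb ?_
  have hlt : Real.exp (-c) < 1 := by rw [Real.exp_lt_one_iff]; linarith
  have hgeo := summable_geometric_of_lt_one (Real.exp_pos (-c)).le hlt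
  refine Summable.mul_left _ ?_
  refine Summable.of_nat_of_neg ?_ ?_
  · simpa using hgeo
  · simpa using hgeo

/-- the shifted lattice point -/
noncomputable def pt (e : Fin g → Fin 2) (n : Fin g → ℤ) (j : Fin g) : ℝ :=
  (n j : ℝ) + (((e j : Fin 2) : ℕ) : ℝ) / 2

theorem summable_gauss (e : Fin g → Fin 2) {c : ℝ} (hc : 0 < c) :
    Summable fun n : Fin g → ℤ => Real.exp (-c * ∑ j, pt e n j ^ 2) := by
  have h := summable_pi_prod g (fun j k => Real.exp (-c * ((k : ℝ) + (((e j : Fin 2) : ℕ) : ℝ) / 2) ^ 2))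
    (fun _ _ => (Real.exp_pos _).le) (fun j => summable_gauss_one hc (by positivity) (by
      have : ((e j : Fin 2) : ℕ) ≤ 1 := by omega
      have : (((e j : Fin 2) : ℕ) : ℝ) ≤ 1 := by exact_mod_cast this
      linarith))
  refine h.congr fun n => ?_
  rw [← Real.exp_sum, Finset.mul_sum]
  rfl

/-- the weight -/
noncomputable def wt (e : Fin g → Fin 2) (n : Fin g → ℤ) : ℝ :=
  Real.exp (-(2 * π) * ∑ j, pt e n j ^ 2)

theorem wt_pos (e : Fin g → Fin 2) (n : Fin g → ℤ) : 0 < wt e n := Real.exp_pos _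

theorem summable_wt (e : Fin g → Fin 2) : Summable (wt e) := summable_gauss e (by positivity)

/-- the weighted sum -/
noncomputable def S (e : Fin g → Fin 2) (φ : (Fin g → ℝ) → ℂ) : ℂ :=
  ∑' n : Fin g → ℤ, (wt e n : ℂ) * φ (pt e n)

theorem summable_S (e : Fin g → Fin 2) {φ : (Fin g → ℝ) → ℂ} {C : ℝ} (h : ∀ m, ‖φ m‖ ≤ C) :
    Summable fun n : Fin g → ℤ => (wt e n : ℂ) * φ (pt e n) := by
  refine Summable.of_norm_bounded ((summable_wt e).mul_right C) fun n => ?_
  rw [norm_mul, Complex.norm_real, Real.norm_eq_abs, abs_of_pos (wt_pos e n)]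
  exact mul_le_mul_of_nonneg_left (h _) (wt_pos e n).le

/-- reflection of one coordinate -/
def flipZ (e : Fin g → Fin 2) (j : Fin g) (n : Fin g → ℤ) : Fin g → ℤ :=
  Function.update n j (-(n j) - ((e j : Fin 2) : ℕ))

theorem flipZ_inv (e : Fin g → Fin 2) (j : Fin g) : Function.Involutive (flipZ e j) := by
  intro n
  simp [flipZ]

theorem pt_flip (e : Fin g → Fin 2) (j : Fin g) (n : Fin g → ℤ) :
    pt e (flipZ e j n) = Function.update (pt e n) j (-(pt e n j)) := by
  funext i
  by_cases hij : i = j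
  · subst hij
    simp [pt, flipZ]
    ring
  · simp [pt, flipZ, hij]

theorem wt_flip (e : Fin g → Fin 2) (j : Fin g) (n : Fin g → ℤ) :
    wt e (flipZ e j n) = wt e n := by
  rw [wt, wt, pt_flip]
  congr 2
  refine Finset.sum_congr rfl fun i _ => ?_
  by_cases hij : i = j
  · subst hij; simp
  · simp [hij]

theorem S_flip (e : Fin g → Fin 2) (j : Fin g) (φ : (Fin g → ℝ) → ℂ) :
    S e φ = S e fun m => φ (Function.update m j (-(m j))) := by
  rw [S, S, ← ((flipZ_inv e j).toPerm).tsum_eq]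
  refine tsum_congr fun n => ?_
  simp only [Function.Involutive.coe_toPerm]
  rw [wt_flip, pt_flip]

theorem S_half (e : Fin g → Fin 2) (j : Fin g) {φ ψ : (Fin g → ℝ) → ℂ} {C : ℝ}
    (h : ∀ m, ‖φ m‖ ≤ C)
    (hψ : ∀ m, (φ m + φ (Function.update m j (-(m j)))) / 2 = ψ m) : S e φ = S e ψ := by
  have h1 := S_flip e j φ
  have h2 : S e ψ = (S e φ + S e fun m => φ (Function.update m j (-(m j)))) / 2 := by
    simp only [S]
    rw [← (summable_S e h).tsum_add (summable_S e (φ := fun m => φ (Function.update m j (-(m j))))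
      (fun m => h _)), ← tsum_div_const]
    refine tsum_congr fun n => ?_
    rw [← hψ]
    ring
  rw [h2, ← h1]
  ring

end Pool.Agent.K9h86.Th
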