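import Pool.Agent.K9h86.Th.Series

/-!
# The fourth order term along a four-cycle
-/

set_option autoImplicit false

open Matrix Complex Filter Topology
open scoped Matrix.Norms.Elementwise Real

namespace Pool.Agent.K9h86.Th

variable {g : ℕ}

/-- the phase `4 π z m_x m_y` -/
noncomputable def ph (z : ℝ) (x y : Fin g) (m : Fin g → ℝ) : ℝ := 4 * π * z * (m x * m y)

/-- the character along the cycle, with sign `s` on the first edge -/
noncomputable def chr (a b c d : Fin g) (s z : ℝ) (m : Fin g → ℝ) : ℂ :=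
  cexp (((s * ph z a b m + ph z b c m + ph z c d m + ph z d a m : ℝ) : ℂ) * I)

theorem norm_chr (a b c d : Fin g) (s z : ℝ) (m : Fin g → ℝ) : ‖chr a b c d s z m‖ = 1 :=
  Complex.norm_exp_ofReal_mul_I _

theorem ph_flip_left {z : ℝ} {x y : Fin g} (hxy : x ≠ y) (m : Fin g → ℝ) :
    ph z x y (Function.update m x (-(m x))) = -ph z x y m := by
  simp [ph, Function.update_of_ne hxy.symm]

theorem ph_flip_right {z : ℝ} {x y : Fin g} (hxy : x ≠ y) (m : Fin g → ℝ) :
    ph z x y (Function.update m y (-(m y))) = -ph z x y m := by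
  simp [ph, Function.update_of_ne hxy]

theorem ph_flip_none {z : ℝ} {x y w : Fin g} (hx : x ≠ w) (hy : y ≠ w) (m : Fin g → ℝ) (t : ℝ) :
    ph z x y (Function.update m w t) = ph z x y m := by
  simp [ph, Function.update_of_ne hx, Function.update_of_ne hy]

theorem exp_sub_exp_neg (x : ℝ) :
    cexp ((x : ℂ) * I) - cexp (-((x : ℂ) * I)) = 2 * I * ((Real.sin x : ℝ) : ℂ) := by
  rw [Complex.ofReal_sin, ← neg_mul, Complex.exp_mul_I, Complex.exp_mul_I, Complex.cos_neg,
    Complex.sin_neg]
  ring

theorem norm_sin_le (x : ℝ) : ‖((Real.sin x : ℝ) : ℂ)‖ ≤ 1 := by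
  rw [Complex.norm_real, Real.norm_eq_abs]; exact Real.abs_sin_le_one x

/-- the alternating difference is a sum of products of sines -/
theorem S_chr_sub (e : Fin g → Fin 2) {a b c d : Fin g} (hab : a ≠ b) (hac : a ≠ c) (had : a ≠ d)
    (hbc : b ≠ c) (hbd : b ≠ d) (hcd : c ≠ d) (z : ℝ) :
    S e (chr a b c d 1 z) - S e (chr a b c d (-1) z) =
      2 * S e fun m => (((Real.sin (ph z a b m) * Real.sin (ph z b c m) * Real.sin (ph z c d m) *
        Real.sin (ph z d a m) : ℝ)) : ℂ) := by
  -- first step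
  have h0 : S e (chr a b c d 1 z) - S e (chr a b c d (-1) z) =
      2 * I * S e fun m => ((Real.sin (ph z a b m) : ℝ) : ℂ) *
        cexp (((ph z b c m + ph z c d m + ph z d a m : ℝ) : ℂ) * I) := by
    simp only [S]
    rw [← (summable_S e (C := 1) fun m => (norm_chr a b c d 1 z m).le).tsum_sub
      (summable_S e (C := 1) fun m => (norm_chr a b c d (-1) z m).le), ← tsum_mul_left]
    refine tsum_congr fun n => ?_
    have h := exp_sub_exp_neg (ph z a b (pt e n))
    have e1 : chr a b c d 1 z (pt e n) = cexp ((ph z a b (pt e n) : ℂ) * I) *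
        cexp (((ph z b c (pt e n) + ph z c d (pt e n) + ph z d a (pt e n) : ℝ) : ℂ) * I) := by
      rw [chr, ← Complex.exp_add]; congr 1; push_cast; ring
    have e2 : chr a b c d (-1) z (pt e n) = cexp (-((ph z a b (pt e n) : ℂ) * I)) *
        cexp (((ph z b c (pt e n) + ph z c d (pt e n) + ph z d a (pt e n) : ℝ) : ℂ) * I) := by
      rw [chr, ← Complex.exp_add]; congr 1; push_cast; ring
    rw [e1, e2]
    linear_combination (wt e n : ℂ) *
      cexp (((ph z b c (pt e n) + ph z c d (pt e n) + ph z d a (pt e n) : ℝ) : ℂ) * I) * h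
  have h1 : (S e fun m => ((Real.sin (ph z a b m) : ℝ) : ℂ) *
        cexp (((ph z b c m + ph z c d m + ph z d a m : ℝ) : ℂ) * I)) =
      S e fun m => I * ((Real.sin (ph z a b m) : ℝ) : ℂ) * ((Real.sin (ph z b c m) : ℝ) : ℂ) *
        cexp (((ph z c d m + ph z d a m : ℝ) : ℂ) * I) := by
    refine S_half e b (C := 1) (fun m => ?_) (fun m => ?_)
    · rw [norm_mul, Complex.norm_exp_ofReal_mul_I, mul_one]; exact norm_sin_le _
    · rw [ph_flip_right hab, ph_flip_left hbc, ph_flip_none hbc.symm hbd.symm,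
        ph_flip_none hbd.symm hab, Real.sin_neg]
      have h := exp_sub_exp_neg (ph z b c m)
      have e1 : cexp (((ph z b c m + ph z c d m + ph z d a m : ℝ) : ℂ) * I) =
          cexp ((ph z b c m : ℂ) * I) * cexp (((ph z c d m + ph z d a m : ℝ) : ℂ) * I) := by
        rw [← Complex.exp_add]; congr 1; push_cast; ring
      have e2 : cexp (((-ph z b c m + ph z c d m + ph z d a m : ℝ) : ℂ) * I) =
          cexp (-((ph z b c m : ℂ) * I)) * cexp (((ph z c d m + ph z d a m : ℝ) : ℂ) * I) := by
        rw [← Complex.exp_add]; congr 1; push_cast; ring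
      rw [e1, e2]
      push_cast at h ⊢
      linear_combination (1 / 2) * Complex.sin (ph z a b m : ℂ) *
        cexp (((ph z c d m : ℂ) + (ph z d a m : ℂ)) * I) * h
  have h2 : (S e fun m => I * ((Real.sin (ph z a b m) : ℝ) : ℂ) *
        ((Real.sin (ph z b c m) : ℝ) : ℂ) *
        cexp (((ph z c d m + ph z d a m : ℝ) : ℂ) * I)) =
      S e fun m => -(((Real.sin (ph z a b m) : ℝ) : ℂ) * ((Real.sin (ph z b c m) : ℝ) : ℂ) *
        ((Real.sin (ph z c d m) : ℝ) : ℂ)) * cexp ((ph z d a m : ℂ) * I) := by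
    refine S_half e c (C := 1) (fun m => ?_) (fun m => ?_)
    · rw [norm_mul, Complex.norm_exp_ofReal_mul_I, mul_one, norm_mul, norm_mul, Complex.norm_I,
        one_mul]
      exact mul_le_one₀ (norm_sin_le _) (norm_nonneg _) (norm_sin_le _)
    · rw [ph_flip_none hac hbc, ph_flip_right hbc, ph_flip_left hcd,
        ph_flip_none hcd.symm hac, Real.sin_neg]
      have h := exp_sub_exp_neg (ph z c d m)
      have e1 : cexp (((ph z c d m + ph z d a m : ℝ) : ℂ) * I) =
          cexp ((ph z c d m : ℂ) * I) * cexp ((ph z d a m : ℂ) * I) := by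
        rw [← Complex.exp_add]; congr 1; push_cast; ring
      have e2 : cexp (((-ph z c d m + ph z d a m : ℝ) : ℂ) * I) =
          cexp (-((ph z c d m : ℂ) * I)) * cexp ((ph z d a m : ℂ) * I) := by
        rw [← Complex.exp_add]; congr 1; push_cast; ring
      rw [e1, e2]
      push_cast at h ⊢
      linear_combination (1 / 2) * I * Complex.sin (ph z a b m : ℂ) *
        Complex.sin (ph z b c m : ℂ) * cexp ((ph z d a m : ℂ) * I) * h +
        Complex.sin (ph z a b m : ℂ) * Complex.sin (ph z b c m : ℂ) *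
        Complex.sin (ph z c d m : ℂ) * cexp ((ph z d a m : ℂ) * I) * Complex.I_mul_I
  have h3 : (S e fun m => -(((Real.sin (ph z a b m) : ℝ) : ℂ) *
        ((Real.sin (ph z b c m) : ℝ) : ℂ) * ((Real.sin (ph z c d m) : ℝ) : ℂ)) *
        cexp ((ph z d a m : ℂ) * I)) =
      S e fun m => -I * (((Real.sin (ph z a b m) * Real.sin (ph z b c m) * Real.sin (ph z c d m) *
        Real.sin (ph z d a m) : ℝ)) : ℂ) := by
    refine S_half e d (C := 1) (fun m => ?_) (fun m => ?_)
    · rw [norm_mul, Complex.norm_exp_ofReal_mul_I, mul_one, norm_neg, norm_mul, norm_mul]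
      exact mul_le_one₀ (mul_le_one₀ (norm_sin_le _) (norm_nonneg _) (norm_sin_le _))
        (norm_nonneg _) (norm_sin_le _)
    · rw [ph_flip_none had hbd, ph_flip_none hbd hcd, ph_flip_right hcd,
        ph_flip_left had.symm, Real.sin_neg]
      have h := exp_sub_exp_neg (ph z d a m)
      have e2 : cexp (((-ph z d a m : ℝ) : ℂ) * I) = cexp (-((ph z d a m : ℂ) * I)) := by
        congr 1; push_cast; ring
      rw [e2]
      push_cast at h ⊢
      linear_combination (-1 / 2) * Complex.sin (ph z a b m : ℂ) *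
        Complex.sin (ph z b c m : ℂ) * Complex.sin (ph z c d m : ℂ) * h
  rw [h0, h1, h2, h3]
  have h4 : (S e fun m => -I * (((Real.sin (ph z a b m) * Real.sin (ph z b c m) *
        Real.sin (ph z c d m) * Real.sin (ph z d a m) : ℝ)) : ℂ)) =
      -I * S e fun m => (((Real.sin (ph z a b m) * Real.sin (ph z b c m) *
        Real.sin (ph z c d m) * Real.sin (ph z d a m) : ℝ)) : ℂ) := by
    simp only [S]
    rw [← tsum_mul_left]
    refine tsum_congr fun n => ?_
    ring
  rw [h4]
  linear_combination (-2) * (S e fun m => (((Real.sin (ph z a b m) * Real.sin (ph z b c m) *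
        Real.sin (ph z c d m) * Real.sin (ph z d a m) : ℝ)) : ℂ)) * Complex.I_mul_I

theorem tendsto_sin_div (k : ℝ) :
    Tendsto (fun z : ℝ => Real.sin (z * k) / z) (𝓝[≠] 0) (𝓝 k) := by
  have h1 : HasDerivAt (fun z : ℝ => Real.sin (z * k)) k 0 := by
    have := ((hasDerivAt_id (0 : ℝ)).mul_const k).sin
    simpa using this
  rw [hasDerivAt_iff_tendsto_slope] at h1
  refine h1.congr fun z => ?_
  simp [slope, div_eq_inv_mul]

/-- the limit vector -/
noncomputable def lim4 (e : Fin g → Fin 2) (a b c d : Fin g) : ℂ :=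
  S e fun m => (((4 * π) ^ 4 * (m a * m b * m c * m d) ^ 2 : ℝ) : ℂ)

theorem summable_bound (e : Fin g → Fin 2) (a b c d : Fin g) :
    Summable fun n : Fin g → ℤ => wt e n *
      ((4 * π) ^ 4 * (pt e n a * pt e n b * pt e n c * pt e n d) ^ 2) := by
  have hpi : (0 : ℝ) < 2 * π - 4 := by have := Real.pi_gt_three; linarith
  refine Summable.of_nonneg_of_le (fun n => ?_) (fun n => ?_)
    ((summable_gauss e hpi).mul_left ((4 * π) ^ 4))
  · have := (wt_pos e n).le; positivity
  · have hx : ∀ x : Fin g, (pt e n x) ^ 2 ≤ Real.exp (∑ j, pt e n j ^ 2) := by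
      intro x
      have h1 : (pt e n x) ^ 2 ≤ ∑ j, pt e n j ^ 2 :=
        Finset.single_le_sum (f := fun j => pt e n j ^ 2) (fun j _ => sq_nonneg _)
          (Finset.mem_univ x)
      have h2 := Real.add_one_le_exp (∑ j, pt e n j ^ 2)
      linarith
    have h4 : (pt e n a * pt e n b * pt e n c * pt e n d) ^ 2 ≤
        Real.exp (4 * ∑ j, pt e n j ^ 2) := by
      have e4 : Real.exp (4 * ∑ j, pt e n j ^ 2) = Real.exp (∑ j, pt e n j ^ 2) *
          Real.exp (∑ j, pt e n j ^ 2) * Real.exp (∑ j, pt e n j ^ 2) *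
          Real.exp (∑ j, pt e n j ^ 2) := by
        rw [← Real.exp_add, ← Real.exp_add, ← Real.exp_add]; congr 1; ring
      rw [e4, mul_pow, mul_pow, mul_pow]
      have := hx a
      have := hx b
      have := hx c
      have := hx d
      gcongr
    have h5 : wt e n * Real.exp (4 * ∑ j, pt e n j ^ 2) =
        Real.exp (-(2 * π - 4) * ∑ j, pt e n j ^ 2) := by
      rw [wt, ← Real.exp_add]; congr 1; ring
    rw [← h5]
    have h6 := (wt_pos e n).le
    calc wt e n * ((4 * π) ^ 4 * (pt e n a * pt e n b * pt e n c * pt e n d) ^ 2)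
        ≤ wt e n * ((4 * π) ^ 4 * Real.exp (4 * ∑ j, pt e n j ^ 2)) := by gcongr
      _ = _ := by ring

theorem abs_sin_div_le (z k : ℝ) : |Real.sin (z * k) / z| ≤ |k| := by
  rcases eq_or_ne z 0 with h | h
  · subst h; simp
  · rw [abs_div, div_le_iff₀ (abs_pos.2 h), ← abs_mul, mul_comm k z]
    exact Real.abs_sin_le_abs

/-- the limit of the difference quotient -/
theorem tendsto_diff (e : Fin g → Fin 2) {a b c d : Fin g} (hab : a ≠ b) (hac : a ≠ c)
    (had : a ≠ d) (hbc : b ≠ c) (hbd : b ≠ d) (hcd : c ≠ d) :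
    Tendsto (fun z : ℝ => (((2 * z ^ 4 : ℝ) : ℂ))⁻¹ *
      (S e (chr a b c d 1 z) - S e (chr a b c d (-1) z))) (𝓝[≠] 0) (𝓝 (lim4 e a b c d)) := by
  have h1 : ∀ z : ℝ, z ≠ 0 → (((2 * z ^ 4 : ℝ) : ℂ))⁻¹ *
      (S e (chr a b c d 1 z) - S e (chr a b c d (-1) z)) =
      ∑' n : Fin g → ℤ, (wt e n : ℂ) *
        (((Real.sin (z * (4 * π * (pt e n a * pt e n b))) / z) *
          (Real.sin (z * (4 * π * (pt e n b * pt e n c))) / z) *
          (Real.sin (z * (4 * π * (pt e n c * pt e n d))) / z) *
          (Real.sin (z * (4 * π * (pt e n d * pt e n a))) / z) : ℝ) : ℂ) := by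
    intro z hz
    rw [S_chr_sub e hab hac had hbc hbd hcd z, S, ← tsum_mul_left, ← tsum_mul_left]
    refine tsum_congr fun n => ?_
    have hz' : (z : ℂ) ≠ 0 := by exact_mod_cast hz
    have e1 : ∀ x y : Fin g, ph z x y (pt e n) = z * (4 * π * (pt e n x * pt e n y)) := by
      intro x y; rw [ph]; ring
    rw [e1, e1, e1, e1]
    push_cast
    field_simp
  have h2 : Tendsto (fun z : ℝ => ∑' n : Fin g → ℤ, (wt e n : ℂ) *
        (((Real.sin (z * (4 * π * (pt e n a * pt e n b))) / z) *
          (Real.sin (z * (4 * π * (pt e n b * pt e n c))) / z) *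
          (Real.sin (z * (4 * π * (pt e n c * pt e n d))) / z) *
          (Real.sin (z * (4 * π * (pt e n d * pt e n a))) / z) : ℝ) : ℂ)) (𝓝[≠] 0)
      (𝓝 (lim4 e a b c d)) := by
    rw [lim4, S]
    refine tendsto_tsum_of_dominated_convergence (summable_bound e a b c d) (fun n => ?_)
      (Eventually.of_forall fun z n => ?_)
    · refine Tendsto.const_mul _ ?_
      refine (Complex.continuous_ofReal.tendsto _).comp ?_
      have := (((tendsto_sin_div (4 * π * (pt e n a * pt e n b))).mul
        (tendsto_sin_div (4 * π * (pt e n b * pt e n c)))).mul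
        (tendsto_sin_div (4 * π * (pt e n c * pt e n d)))).mul
        (tendsto_sin_div (4 * π * (pt e n d * pt e n a)))
      convert! this using 2
      ring
    · rw [norm_mul, Complex.norm_real, Complex.norm_real, Real.norm_eq_abs, Real.norm_eq_abs,
        abs_of_pos (wt_pos e n)]
      refine mul_le_mul_of_nonneg_left ?_ (wt_pos e n).le
      rw [abs_mul, abs_mul, abs_mul]
      have e1 : (4 * π) ^ 4 * (pt e n a * pt e n b * pt e n c * pt e n d) ^ 2 =
          |4 * π * (pt e n a * pt e n b)| * |4 * π * (pt e n b * pt e n c)| *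
          |4 * π * (pt e n c * pt e n d)| * |4 * π * (pt e n d * pt e n a)| := by
        rw [← abs_mul, ← abs_mul, ← abs_mul]
        rw [abs_of_nonneg]
        · ring
        · have : 4 * π * (pt e n a * pt e n b) * (4 * π * (pt e n b * pt e n c)) *
            (4 * π * (pt e n c * pt e n d)) * (4 * π * (pt e n d * pt e n a)) =
            (4 * π) ^ 4 * (pt e n a * pt e n b * pt e n c * pt e n d) ^ 2 := by ring
          rw [this]; positivity
      rw [e1]
      have := abs_sin_div_le z (4 * π * (pt e n a * pt e n b))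
      have := abs_sin_div_le z (4 * π * (pt e n b * pt e n c))
      have := abs_sin_div_le z (4 * π * (pt e n c * pt e n d))
      have := abs_sin_div_le z (4 * π * (pt e n d * pt e n a))
      gcongr
  refine h2.congr' ?_
  filter_upwards [self_mem_nhdsWithin] with z hz
  exact (h1 z hz).symm

/-- continuity at `i` -/
theorem tendsto_chr (e : Fin g → Fin 2) (a b c d : Fin g) (s : ℝ) :
    Tendsto (fun z : ℝ => S e (chr a b c d s z)) (𝓝 0) (𝓝 (S e fun _ => 1)) := by
  refine tendsto_tsum_of_dominated_convergence (summable_wt e) (fun n => ?_)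
    (Eventually.of_forall fun z n => ?_)
  · have hc : Continuous fun z : ℝ => (wt e n : ℂ) * chr a b c d s z (pt e n) := by
      unfold chr ph
      fun_prop
    have := hc.tendsto 0
    simpa [chr, ph] using this
  · rw [norm_mul, norm_chr, mul_one, Complex.norm_real, Real.norm_eq_abs, abs_of_pos (wt_pos e n)]

end Pool.Agent.K9h86.Th
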